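import Mathlib

/-!
# Distance sets of planar self-similar sets: statements

Averages of measures on the line at a scale, angular energy estimates, directions of differences.
-/

namespace Pool.Agent.Y293.FA

open MeasureTheory Set Filter Topology
open scoped ENNReal

noncomputable section

/-- The average density of a measure at the scale `δ`. -/
def av (δ : ℝ) (m : Measure ℝ) (t : ℝ) : ℝ := δ⁻¹ * m.real (Icc (t - δ / 2) (t + δ / 2))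

/-- The squared `L²` norm of the average density. -/
def qq (δ : ℝ) (m : Measure ℝ) : ℝ := ∫ t, av δ m t ^ 2

/-- The squared `L²` distance of the average densities at two scales. -/
def dd (a b : ℝ) (m : Measure ℝ) : ℝ := ∫ t, (av a m t - av b m t) ^ 2

/-- The orthogonal projection to the line in direction `θ`. -/
def pr (θ : ℝ) (z : ℂ) : ℝ := z.re * Real.cos θ + z.im * Real.sin θ

/-- The orthogonal projection to the line spanned by the unit vector `e`. -/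
def pe (e z : ℂ) : ℝ := (z * (starRingEnd ℂ) e).re

/-- The law of the difference of two independent points. -/
def dif (μ : Measure ℂ) : Measure ℂ := (μ.prod μ).map fun p : ℂ × ℂ => p.1 - p.2

/-- The Riesz energy. -/
def en (s : ℝ) (μ : Measure ℂ) : ℝ≥0∞ := ∫⁻ x, ∫⁻ y, edist x y ^ (-s) ∂μ ∂μ

/-- Monotonicity. -/
def S_MONO : Prop := ∀ (m m' : Measure ℝ) [IsFiniteMeasure m] [IsFiniteMeasure m'] (δ : ℝ),
  0 < δ → m ≤ m' → qq δ m ≤ qq δ m'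

/-- The triangle inequality in `L²`. -/
def S_MINK : Prop := ∀ (m : Measure ℝ) [IsFiniteMeasure m] (a b : ℝ), 0 < a → 0 < b →
  √(qq a m) ≤ √(qq b m) + √(dd a b m)

/-- Perturbation of the map. -/
def S_PERT : Prop := ∀ (μ : Measure ℂ) [IsProbabilityMeasure μ] (g g' : ℂ → ℝ), Measurable g →
  Measurable g' → ∀ h : ℝ, (∀ᵐ z ∂μ, |g z - g' z| ≤ h) → ∀ a b : ℝ, 0 < a → a ≤ b →
    dd a b (μ.map g) ≤ 3 * dd a b (μ.map g') + 12 * h / a ^ 2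

/-- Scaling. -/
def S_SCALE : Prop := ∀ (m : Measure ℝ) [IsProbabilityMeasure m] (ρ x a b : ℝ), 0 < ρ → 0 < a →
  0 < b → dd a b (m.map fun t => x + ρ * t) = ρ⁻¹ * dd (a / ρ) (b / ρ) m

/-- Differences of independent points. -/
def S_CONV : Prop := ∀ (μ : Measure ℂ) [IsProbabilityMeasure μ] (θ a b : ℝ), 0 < a → 0 < b →
  dd a b ((dif μ).map (pr θ)) ≤ dd a b (μ.map (pr θ))

/-- Sums of measures on short intervals. -/
def S_ADJ : Prop := ∃ C : ℝ, 0 < C ∧ ∀ (ι : Type) [Fintype ι] (p : ι → ℝ) (m : ι → Measure ℝ)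
  [∀ i, IsProbabilityMeasure (m i)] (x : ι → ℝ) (ρ a b B : ℝ), (∀ i, 0 ≤ p i) → 0 < a → a ≤ b →
  b ≤ ρ → 0 ≤ B → (∀ i, m i (Icc (x i - ρ) (x i + ρ))ᶜ = 0) → (∀ i, dd a b (m i) ≤ B) →
    dd a b (∑ i, ENNReal.ofReal (p i) • m i) ≤
      C * B * ρ * qq b (∑ i, ENNReal.ofReal (p i) • m i)

/-- Positive Lebesgue measure from bounded norms. -/
def S_POS : Prop := ∀ (K : Set ℝ), IsCompact K → ∀ δ : ℕ → ℝ, (∀ k, 0 < δ k) →
  Tendsto δ atTop (𝓝 0) → ∀ (f : ℕ → Measure ℝ) [∀ k, IsFiniteMeasure (f k)],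
  (∀ k, f k Kᶜ = 0) → ∀ m₀ M : ℝ, 0 < m₀ → (∀ k, m₀ ≤ (f k).real univ) →
  (∀ k, qq (δ k) (f k) ≤ M) → 0 < volume K

/-- The overlap of two intervals of lengths `a` and `b` the centres of which have distance `|u|`,
divided by `a b`. -/
def kk (a b u : ℝ) : ℝ := (a * b)⁻¹ * max 0 (min (min a b) ((a + b) / 2 - |u|))

/-- The quadratic form. -/
def S_FORM : Prop := ∀ (m : Measure ℝ) [IsProbabilityMeasure m] (a b : ℝ), 0 < a → a ≤ b →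
  dd a b m = ∫ x, ∫ y, (kk a a (x - y) - 2 * kk a b (x - y) + kk b b (x - y)) ∂m ∂m

/-- The angular averages of the kernel. -/
def S_KER : Prop := ∃ C : ℝ, 0 < C ∧ ∀ a b : ℝ, 0 < a → a ≤ b → ∀ z : ℂ, z ≠ 0 →
  |∫ θ in (0 : ℝ)..2 * Real.pi,
      (kk a a (pr θ z) - 2 * kk a b (pr θ z) + kk b b (pr θ z))| ≤
    C * min (‖z‖⁻¹) (b ^ 2 * ‖z‖⁻¹ ^ 3)

/-- The angular energy estimate. -/
def S_ENERGY : Prop := ∃ C : ℝ, 0 < C ∧ ∀ (μ : Measure ℂ) [IsProbabilityMeasure μ] (s I : ℝ),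
  1 < s → s ≤ 2 → 0 ≤ I → en s μ ≤ ENNReal.ofReal I → ∀ a b : ℝ, 0 < a → a ≤ b →
    ∫⁻ θ in Ioc 0 (2 * Real.pi), ENNReal.ofReal (dd a b (μ.map (pr θ))) ≤
      ENNReal.ofReal (C * I * b ^ (s - 1))

/-- Many differences have directions in which the law of the difference is not concentrated. -/
def S_DIR : Prop := ∀ (μ : Measure ℂ) [IsProbabilityMeasure μ] (s : ℝ), 1 < s → s ≤ 2 →
  en s μ < ⊤ → ∃ (A : Set ℂ) (κ K : ℝ), MeasurableSet A ∧ 0 < κ ∧ 0 < K ∧ 0 < dif μ A ∧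
    (∀ z ∈ A, κ ≤ ‖z‖) ∧ ∀ z ∈ A, ∀ r : ℝ, 0 < r →
      dif μ {w : ℂ | |(w * (starRingEnd ℂ) z).im| ≤ r * ‖z‖} ≤ ENNReal.ofReal (K * r)

/-- Averages over finitely many well distributed directions. -/
def S_AVG : Prop := ∀ (ν : Measure ℂ) [IsProbabilityMeasure ν] (R : ℝ), 0 < R →
  (∀ᵐ z ∂ν, ‖z‖ ≤ R) → ∀ (ι : Type) [Fintype ι] (p : ι → ℝ), (∀ i, 0 ≤ p i) →
  ∀ e : ι → ℂ, (∀ i, ‖e i‖ = 1) → ∀ η K a b Q : ℝ, 0 < η → η ≤ 1 → 0 ≤ K → 0 < a → a ≤ b →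
  0 ≤ Q → (∀ i, ∑ j, (open Classical in if ‖e j - e i‖ ≤ 2 * η then p j else 0) ≤ K * η) →
  ∫⁻ θ in Ioc 0 (2 * Real.pi), ENNReal.ofReal (dd a b (ν.map (pr θ))) ≤ ENNReal.ofReal Q →
    ∑ i, p i * dd a b (ν.map (pe (e i))) ≤ K * (3 * Q + 24 * Real.pi * R * η / a ^ 2)

/-- Linearisation of the norm. -/
def S_LIN : Prop := ∀ u h : ℂ, u ≠ 0 →
  |‖u + h‖ - ‖u‖ - (h * (starRingEnd ℂ) u).re / ‖u‖| ≤ 4 * ‖h‖ ^ 2 / ‖u‖

/-- The homogeneous case. -/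
def S_HOM : Prop := ∀ (c : ℂ), c ≠ 0 → ‖c‖ < 1 → ∀ (N : ℕ) (T : Fin N → ℂ) (E : Set ℂ),
  IsCompact E → (∀ i, ∀ z ∈ E, c * z + T i ∈ E) → ∀ (μ : Measure ℂ) [IsProbabilityMeasure μ],
  μ Eᶜ = 0 → μ = (N : ℝ≥0∞)⁻¹ • ∑ i, μ.map (fun z => c * z + T i) → ∀ s : ℝ, 1 < s → s ≤ 2 →
  en s μ < ⊤ → 0 < volume {t : ℝ | ∃ x ∈ E, ∃ y ∈ E, t = dist x y}

/-- Self-similar measures: existence and energy. -/
def S_SSM : Prop := ∀ (c : ℂ), c ≠ 0 → ‖c‖ < 1 → ∀ (N : ℕ) (T : Fin N → ℂ) (E : Set ℂ),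
  IsCompact E → E.Nonempty → (∀ i, ∀ z ∈ E, c * z + T i ∈ E) →
  (∀ i j, i ≠ j → ∀ x ∈ E, ∀ y ∈ E, c * x + T i ≠ c * y + T j) → ∀ s : ℝ, 0 < s →
  1 < N * ‖c‖ ^ s → ∃ μ : Measure ℂ, IsProbabilityMeasure μ ∧ μ Eᶜ = 0 ∧
    μ = (N : ℝ≥0∞)⁻¹ • ∑ i, μ.map (fun z => c * z + T i) ∧ en s μ < ⊤

/-- Planar similarities: the orientation, the linear part and the translation. -/
def sm (o : Bool) (a b : ℂ) (z : ℂ) : ℂ := a * (if o then (starRingEnd ℂ) z else z) + b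

/-- The number of linear parts of the words of length `n` is polynomial: there is a finite set of
at most `(n + 1) ^ (2 * m) * 2` pairs such that each word of length `n` is a similarity with this
orientation and linear part. -/
def S_CNT : Prop := ∀ (m : ℕ) (o : Fin m → Bool) (a b : Fin m → ℂ) (n : ℕ),
  ∃ L : Finset (Bool × ℂ), L.card ≤ 2 * (n + 1) ^ (2 * m) ∧ ∀ w : List (Fin m), w.length = n →
    ∃ q ∈ L, ∃ t : ℂ, (∀ z, w.foldr (fun i x => sm (o i) (a i) (b i) x) z = sm q.1 q.2 t z)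

/-- A homogeneous subsystem with disjoint images. -/
def S_SUB : Prop := ∀ (m : ℕ) (o : Fin m → Bool) (a b : Fin m → ℂ), (∀ i, a i ≠ 0) →
  (∀ i, ‖a i‖ < 1) → ∀ E : Set ℂ, IsCompact E → E = ⋃ i, sm (o i) (a i) (b i) '' E →
  1 < dimH E → ∃ (c : ℂ) (N : ℕ) (T : Fin N → ℂ), c ≠ 0 ∧ ‖c‖ < 1 ∧ 1 < N * ‖c‖ ∧
    (∀ i, ∀ z ∈ E, c * z + T i ∈ E) ∧
    (∀ i j, i ≠ j → ∀ x ∈ E, ∀ y ∈ E, c * x + T i ≠ c * y + T j)

/-- Similarities of the plane. -/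
def S_SIM : Prop := ∀ (f : ℂ → ℂ) (r : ℝ), 0 < r → (∀ x y, dist (f x) (f y) = r * dist x y) →
  ∃ (o : Bool) (a b : ℂ), ‖a‖ = r ∧ ∀ z, f z = sm o a b z

/-- The theorem: the distance set of each planar self-similar set of Hausdorff dimension greater
than one has positive Lebesgue measure. -/
def S_MAIN : Prop := ∀ (m : ℕ) (f : Fin m → EuclideanSpace ℝ (Fin 2) → EuclideanSpace ℝ (Fin 2))
  (r : Fin m → ℝ), (∀ i, 0 < r i) → (∀ i, r i < 1) →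
  (∀ i x y, dist (f i x) (f i y) = r i * dist x y) → ∀ E : Set (EuclideanSpace ℝ (Fin 2)),
  IsCompact E → E = ⋃ i, f i '' E → 1 < dimH E →
    0 < volume {t : ℝ | ∃ x ∈ E, ∃ y ∈ E, t = dist x y}

end

end Pool.Agent.Y293.FA
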