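import Mathlib
import Pool.Agent.Y293.FA.Stm

/-!
# Basic facts on the average densities
-/

namespace Pool.Agent.Y293.FA

open MeasureTheory Set Filter Topology
open scoped ENNReal

theorem mem_Icc_av (δ t x : ℝ) : x ∈ Icc (t - δ / 2) (t + δ / 2) ↔ |x - t| ≤ δ / 2 := by
  rw [mem_Icc, abs_le]
  constructor
  · rintro ⟨h1, h2⟩
    exact ⟨by linarith, by linarith⟩
  · rintro ⟨h1, h2⟩
    exact ⟨by linarith, by linarith⟩

theorem measurableSet_strip (δ : ℝ) : MeasurableSet {p : ℝ × ℝ | |p.2 - p.1| ≤ δ / 2} :=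
  measurableSet_le (by fun_prop) (by fun_prop)

theorem measurable_mass (δ : ℝ) (m : Measure ℝ) [IsFiniteMeasure m] :
    Measurable fun t => m (Icc (t - δ / 2) (t + δ / 2)) := by
  have h2 := measurable_measure_prodMk_left (ν := m) (measurableSet_strip δ)
  have h3 : (fun t => m (Icc (t - δ / 2) (t + δ / 2))) =
      fun t => m (Prod.mk t ⁻¹' {p : ℝ × ℝ | |p.2 - p.1| ≤ δ / 2}) := by
    funext t
    congr 1
    ext x
    rw [mem_Icc_av]
    rfl
  rw [h3]
  exact h2

theorem measurable_av (δ : ℝ) (m : Measure ℝ) [IsFiniteMeasure m] : Measurable (av δ m) := by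
  unfold av Measure.real
  exact ((measurable_mass δ m).ennreal_toReal).const_mul _

theorem av_nonneg {δ : ℝ} (hδ : 0 < δ) (m : Measure ℝ) (t : ℝ) : 0 ≤ av δ m t :=
  mul_nonneg (inv_nonneg.2 hδ.le) measureReal_nonneg

theorem av_le {δ : ℝ} (hδ : 0 < δ) (m : Measure ℝ) [IsFiniteMeasure m] (t : ℝ) :
    av δ m t ≤ δ⁻¹ * m.real univ :=
  mul_le_mul_of_nonneg_left (measureReal_mono (subset_univ _)) (inv_nonneg.2 hδ.le)

theorem lintegral_mass {δ : ℝ} (hδ : 0 < δ) (m : Measure ℝ) [IsFiniteMeasure m] :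
    ∫⁻ t, m (Icc (t - δ / 2) (t + δ / 2)) = ENNReal.ofReal δ * m univ := by
  have h1 : (fun t => m (Icc (t - δ / 2) (t + δ / 2))) =
      fun t => ∫⁻ x, ({p : ℝ × ℝ | |p.2 - p.1| ≤ δ / 2}.indicator (fun _ => (1 : ℝ≥0∞))) (t, x)
        ∂m := by
    funext t
    have h2 : (fun x => ({p : ℝ × ℝ | |p.2 - p.1| ≤ δ / 2}.indicator
        (fun _ => (1 : ℝ≥0∞))) (t, x)) = (Icc (t - δ / 2) (t + δ / 2)).indicator 1 := by
      funext x
      simp only [indicator_apply, mem_Icc_av, mem_setOf_eq, Pi.one_apply]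
    rw [h2, lintegral_indicator_one measurableSet_Icc]
  rw [h1, lintegral_lintegral_swap]
  · have h3 : ∀ x : ℝ, ∫⁻ t, ({p : ℝ × ℝ | |p.2 - p.1| ≤ δ / 2}.indicator
        (fun _ => (1 : ℝ≥0∞))) (t, x) = ENNReal.ofReal δ := by
      intro x
      have h2 : (fun t => ({p : ℝ × ℝ | |p.2 - p.1| ≤ δ / 2}.indicator
          (fun _ => (1 : ℝ≥0∞))) (t, x)) = (Icc (x - δ / 2) (x + δ / 2)).indicator 1 := by
        funext t
        simp only [indicator_apply, mem_Icc_av, mem_setOf_eq, Pi.one_apply]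
        rw [abs_sub_comm]
      rw [h2, lintegral_indicator_one measurableSet_Icc, Real.volume_Icc]
      congr 1
      ring
    simp only [h3, lintegral_const]
  · refine Measurable.aemeasurable ?_
    exact (measurable_const.indicator (measurableSet_strip δ))

theorem lintegral_av {δ : ℝ} (hδ : 0 < δ) (m : Measure ℝ) [IsFiniteMeasure m] :
    ∫⁻ t, ENNReal.ofReal (av δ m t) = m univ := by
  have h1 : ∀ t, ENNReal.ofReal (av δ m t) =
      ENNReal.ofReal δ⁻¹ * m (Icc (t - δ / 2) (t + δ / 2)) := by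
    intro t
    rw [av, ENNReal.ofReal_mul (inv_nonneg.2 hδ.le), ofReal_measureReal]
  simp only [h1]
  rw [lintegral_const_mul _ (measurable_mass δ m), lintegral_mass hδ, ← mul_assoc,
    ← ENNReal.ofReal_mul (inv_nonneg.2 hδ.le), inv_mul_cancel₀ hδ.ne', ENNReal.ofReal_one, one_mul]

theorem integrable_av {δ : ℝ} (hδ : 0 < δ) (m : Measure ℝ) [IsFiniteMeasure m] :
    Integrable (av δ m) := by
  refine ⟨(measurable_av δ m).aestronglyMeasurable, ?_⟩
  rw [hasFiniteIntegral_iff_ofReal (ae_of_all _ fun t => av_nonneg hδ m t), lintegral_av hδ]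
  exact measure_lt_top m univ

theorem integral_av {δ : ℝ} (hδ : 0 < δ) (m : Measure ℝ) [IsFiniteMeasure m] :
    ∫ t, av δ m t = m.real univ := by
  rw [integral_eq_lintegral_of_nonneg_ae (ae_of_all _ fun t => av_nonneg hδ m t)
    (measurable_av δ m).aestronglyMeasurable, lintegral_av hδ]
  rfl

theorem memLp_av {δ : ℝ} (hδ : 0 < δ) (m : Measure ℝ) [IsFiniteMeasure m] :
    MemLp (av δ m) 2 := by
  rw [memLp_two_iff_integrable_sq (measurable_av δ m).aestronglyMeasurable]
  refine ((integrable_av hδ m).const_mul (δ⁻¹ * m.real univ)).mono'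
    ((measurable_av δ m).pow_const 2).aestronglyMeasurable (ae_of_all _ fun t => ?_)
  rw [Real.norm_of_nonneg (sq_nonneg _), sq]
  exact mul_le_mul_of_nonneg_right (av_le hδ m t) (av_nonneg hδ m t)

theorem integrable_av_sq {δ : ℝ} (hδ : 0 < δ) (m : Measure ℝ) [IsFiniteMeasure m] :
    Integrable fun t => av δ m t ^ 2 :=
  (memLp_two_iff_integrable_sq (measurable_av δ m).aestronglyMeasurable).1 (memLp_av hδ m)

theorem memLp_sub {a b : ℝ} (ha : 0 < a) (hb : 0 < b) (m m' : Measure ℝ) [IsFiniteMeasure m]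
    [IsFiniteMeasure m'] : MemLp (fun t => av a m t - av b m' t) 2 :=
  (memLp_av ha m).sub (memLp_av hb m')

theorem integrable_sub_sq {a b : ℝ} (ha : 0 < a) (hb : 0 < b) (m m' : Measure ℝ)
    [IsFiniteMeasure m] [IsFiniteMeasure m'] :
    Integrable fun t => (av a m t - av b m' t) ^ 2 :=
  (memLp_two_iff_integrable_sq (memLp_sub ha hb m m').1).1 (memLp_sub ha hb m m')

theorem qq_nonneg (δ : ℝ) (m : Measure ℝ) : 0 ≤ qq δ m := integral_nonneg fun _ => sq_nonneg _

theorem dd_nonneg (a b : ℝ) (m : Measure ℝ) : 0 ≤ dd a b m := integral_nonneg fun _ => sq_nonneg _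

/-- The average density of an image measure. -/
theorem av_map {α : Type*} [MeasurableSpace α] (μ : Measure α) {g : α → ℝ} (hg : Measurable g)
    (δ t : ℝ) : av δ (μ.map g) t = δ⁻¹ * μ.real {z | |g z - t| ≤ δ / 2} := by
  unfold av
  rw [map_measureReal_apply hg measurableSet_Icc]
  congr 2
  ext z
  rw [mem_preimage, mem_Icc_av]
  rfl

/-- The average density as an integral. -/
theorem av_eq_integral (m : Measure ℝ) [IsFiniteMeasure m] (δ t : ℝ) :
    av δ m t = ∫ x, (Icc (t - δ / 2) (t + δ / 2)).indicator (fun _ => δ⁻¹) x ∂m := by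
  rw [integral_indicator measurableSet_Icc, setIntegral_const, av, smul_eq_mul, mul_comm]

theorem mono : S_MONO := by
  intro m m' _ _ δ hδ h
  unfold qq
  refine integral_mono (integrable_av_sq hδ m) (integrable_av_sq hδ m') fun t => ?_
  refine pow_le_pow_left₀ (av_nonneg hδ m t) ?_ 2
  refine mul_le_mul_of_nonneg_left ?_ (inv_nonneg.2 hδ.le)
  exact ENNReal.toReal_mono (measure_ne_top _ _) (h _)

/-- The triangle inequality. -/
theorem sqrt_integral_add_le {f g : ℝ → ℝ} (hf : MemLp f 2) (hg : MemLp g 2) :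
    √(∫ t, (f t + g t) ^ 2) ≤ √(∫ t, f t ^ 2) + √(∫ t, g t ^ 2) := by
  have key : ∀ {u : ℝ → ℝ} (hu : MemLp u 2), √(∫ t, u t ^ 2) = (eLpNorm u 2 volume).toReal := by
    intro u hu
    rw [hu.eLpNorm_eq_integral_rpow_norm (by norm_num) (by norm_num)]
    rw [ENNReal.toReal_ofReal (by positivity)]
    rw [Real.sqrt_eq_rpow]
    norm_num
  have h3 : √(∫ t, (f t + g t) ^ 2) = (eLpNorm (f + g) 2 volume).toReal := key (hf.add hg)
  rw [key hf, key hg, h3, ← ENNReal.toReal_add hf.2.ne hg.2.ne]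
  exact ENNReal.toReal_mono (ENNReal.add_ne_top.2 ⟨hf.2.ne, hg.2.ne⟩)
    (eLpNorm_add_le hf.1 hg.1 (by norm_num))

theorem mink : S_MINK := by
  intro m _ a b ha hb
  have h := sqrt_integral_add_le (memLp_av hb m) (memLp_sub ha hb m m)
  simpa only [qq, dd, add_sub_cancel] using h

end Pool.Agent.Y293.FA
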