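import Mathlib
import Pool.Agent.Y293.FA.Stm

/-!
# Pinned distance sets of regular planar sets: statements
-/

namespace Pool.Agent.Y293.FA

open MeasureTheory Set Filter Topology Metric
open scoped ENNReal

noncomputable section

/-- The tube of width `w` around the line through `x` and `y`. -/
def tube (w : ℝ) (x y : ℂ) : Set ℂ :=
  {z | |((z - x) * (starRingEnd ℂ) (y - x)).im| ≤ w * ‖y - x‖}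

/-- Frostman's condition. -/
def Frm (μ : Measure ℂ) (C s : ℝ) : Prop :=
  ∀ (x : ℂ) (r : ℝ), 0 < r → μ (closedBall x r) ≤ ENNReal.ofReal (C * r ^ s)

/-- The radial projection lemma. -/
def S_RAD : Prop := ∀ (μ : Measure ℂ) [IsProbabilityMeasure μ] (R C s : ℝ),
  (∀ᵐ x ∂μ, ‖x‖ ≤ R) → 0 < C → 1 < s → s < 2 → Frm μ C s →
  ∃ C' : ℝ, 0 < C' ∧ ∃ c : ℝ, 0 < c ∧ ∀ w : ℝ, 0 < w → w ≤ 1 → ∀ M : ℝ, 1 ≤ M →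
    (μ.prod μ) {p | ENNReal.ofReal (M * w) < μ (tube w p.1 p.2)} ≤
      ENNReal.ofReal (C' * M ^ (-c))

/-- Frostman's lemma in the plane. -/
def S_FRO : Prop := ∀ (A : Set ℂ), IsCompact A → ∀ s : ℝ, 0 ≤ s → ENNReal.ofReal s < dimH A →
  ∃ μ : Measure ℂ, IsProbabilityMeasure μ ∧ μ Aᶜ = 0 ∧ ∃ C : ℝ, 0 < C ∧ Frm μ C s

/-- Averages over a measure on the directions. -/
def S_AVGC : Prop := ∀ (ν : Measure ℂ) [IsProbabilityMeasure ν] (R : ℝ), 0 < R →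
  (∀ᵐ z ∂ν, ‖z‖ ≤ R) → ∀ (ρ : Measure ℂ) [IsFiniteMeasure ρ] (e : ℂ → ℂ), Measurable e →
  (∀ x, ‖e x‖ = 1) → ∀ X : Set ℂ, ρ Xᶜ = 0 → ∀ η K a b Q : ℝ, 0 < η → η ≤ 1 → 0 ≤ K → 0 < a →
  a ≤ b → 0 ≤ Q → (∀ x ∈ X, ρ {x' | ‖e x' - e x‖ ≤ 2 * η} ≤ ENNReal.ofReal (K * η)) →
  ∫⁻ θ in Ioc 0 (2 * Real.pi), ENNReal.ofReal (dd a b (ν.map (pr θ))) ≤ ENNReal.ofReal Q →
    ∫⁻ x, ENNReal.ofReal (dd a b (ν.map (pe (e x)))) ∂ρ ≤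
      ENNReal.ofReal (K * (3 * Q + 24 * Real.pi * R * η / a ^ 2))

/-- The conditional measure. -/
def cm (μ : Measure ℂ) (Q : Set ℂ) : Measure ℂ := (μ Q)⁻¹ • μ.restrict Q

/-- The rescaled measure. -/
def rs (y : ℂ) (l : ℝ) (m : Measure ℂ) : Measure ℂ := m.map fun z => (z - y) / (l : ℂ)

/-- The energy of the rescaled conditional measure on a small set. -/
def S_CUBEN : Prop := ∀ C s s' : ℝ, 0 < C → 0 < s' → s' < s → ∃ D : ℝ, 0 < D ∧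
  ∀ (μ : Measure ℂ) [IsFiniteMeasure μ], Frm μ C s → ∀ Q : Set ℂ, MeasurableSet Q → μ Q ≠ 0 →
  ∀ (y : ℂ) (l : ℝ), 0 < l → (∀ z ∈ Q, ‖z - y‖ ≤ 2 * l) →
    en s' (rs y l (cm μ Q)) ≤ ENNReal.ofReal (D * l ^ s) / μ Q

/-- Measurability of the distance of the averages as a function of the pin. -/
def S_MEAS : Prop := ∀ (μ : Measure ℂ) [IsProbabilityMeasure μ] (a b : ℝ), 0 < a → 0 < b →
  Measurable fun x : ℂ => dd a b (μ.map (dist x))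

/-- The estimate for one small set. -/
def S_CUBE : Prop := ∀ R κ : ℝ, 0 < R → 0 < κ → ∃ C : ℝ, 0 < C ∧
  ∀ (μ : Measure ℂ) [IsProbabilityMeasure μ], (∀ᵐ x ∂μ, ‖x‖ ≤ R) → ∀ Q : Set ℂ,
  MeasurableSet Q → μ Q ≠ 0 → ∀ (y : ℂ) (l : ℝ), ‖y‖ ≤ R → 0 < l → l ≤ 1 →
  (∀ z ∈ Q, ‖z - y‖ ≤ 2 * l) → ∀ a b V L : ℝ, 0 < a → a ≤ b → 0 ≤ V → 1 ≤ L →
  ∫⁻ θ in Ioc 0 (2 * Real.pi),
    ENNReal.ofReal (dd (a / l) (b / l) ((rs y l (cm μ Q)).map (pr θ))) ≤ ENNReal.ofReal V →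
  ∫⁻ x in {x | κ ≤ ‖y - x‖ ∧ μ (tube (4 * R * l) x y) ≤ ENNReal.ofReal (L * l)},
    ENNReal.ofReal (dd a b ((cm μ Q).map (dist x))) ∂μ ≤
      ENNReal.ofReal (C * L * (V / l + l ^ 2 / a ^ 2))

/-- The index of the dyadic square which contains a point. -/
def qi (k : ℕ) (z : ℂ) : ℤ × ℤ := (⌊(2 : ℝ) ^ k * z.re⌋, ⌊(2 : ℝ) ^ k * z.im⌋)

/-- The dyadic square. -/
def ce (k : ℕ) (q : ℤ × ℤ) : Set ℂ := {z | qi k z = q}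

/-- The corner of the dyadic square. -/
def yc (k : ℕ) (q : ℤ × ℤ) : ℂ := ⟨(q.1 : ℝ) / 2 ^ k, (q.2 : ℝ) / 2 ^ k⟩

/-- The scales. -/
def ds (α : ℝ) (k : ℕ) : ℝ := (2 : ℝ) ^ (-((1 + α) * k))

/-- The good squares of a pin. -/
def Okq (μ : Measure ℂ) (I : ℕ → Finset (ℤ × ℤ)) (R κ t' ε α γ : ℝ) (k : ℕ) (x : ℂ)
    (q : ℤ × ℤ) : Prop :=
  q ∈ I k ∧ ENNReal.ofReal ((2 : ℝ) ^ (-(t' * k))) ≤ μ (ce k q) ∧ κ ≤ ‖yc k q - x‖ ∧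
  μ (tube (4 * R * (2⁻¹ : ℝ) ^ k) x (yc k q)) ≤
    ENNReal.ofReal ((2 : ℝ) ^ (ε * k) * (2⁻¹ : ℝ) ^ k) ∧
  dd (ds α (k + 1)) (ds α k) ((cm μ (ce k q)).map (dist x)) ≤
    (2 : ℝ) ^ k * (2 : ℝ) ^ (-(γ * k))

/-- The pairs of a pin and a point with a heavy tube. -/
def S_BT : Prop := ∀ (μ : Measure ℂ) [IsProbabilityMeasure μ] (R C s ε κ : ℝ), 1 ≤ R →
  (∀ᵐ x ∂μ, ‖x‖ + 2 ≤ R) → 0 < C → 1 < s → s < 2 → Frm μ C s → 0 < ε → 0 < κ →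
  ∃ C' r : ℝ, 0 < C' ∧ 0 < r ∧ r < 1 ∧ ∃ k₀ : ℕ, ∀ k, k₀ ≤ k →
    (μ.prod μ) {p | 2 * κ ≤ ‖p.2 - p.1‖ ∧ ENNReal.ofReal ((2 : ℝ) ^ (ε * k) * (2⁻¹ : ℝ) ^ k) <
      μ (tube (4 * R * (2⁻¹ : ℝ) ^ k) p.1 (yc k (qi k p.2)))} ≤ ENNReal.ofReal (C' * r ^ k)

/-- The pins for which a square is bad. -/
def S_BD : Prop := ∀ (μ : Measure ℂ) [IsProbabilityMeasure μ] (R C s s' t' ε α γ κ : ℝ), 1 ≤ R →
  (∀ᵐ x ∂μ, ‖x‖ + 2 ≤ R) → 0 < C → 1 < s' → s' < s → s < 2 → Frm μ C s → 0 < ε → 0 < γ →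
  0 < α → 0 < κ → t' - s + ε + 2 * γ < α * (s' - 1) → 2 * α + ε + 2 * γ < 1 →
  ∃ C' : ℝ, 0 < C' ∧ ∀ (k : ℕ) (q : ℤ × ℤ),
    ENNReal.ofReal ((2 : ℝ) ^ (-(t' * k))) ≤ μ (ce k q) →
    μ {x | κ ≤ ‖yc k q - x‖ ∧ μ (tube (4 * R * (2⁻¹ : ℝ) ^ k) x (yc k q)) ≤
        ENNReal.ofReal ((2 : ℝ) ^ (ε * k) * (2⁻¹ : ℝ) ^ k) ∧
      (2 : ℝ) ^ k * (2 : ℝ) ^ (-(γ * k)) <
        dd (ds α (k + 1)) (ds α k) ((cm μ (ce k q)).map (dist x))} ≤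
      ENNReal.ofReal (C' * (2 : ℝ) ^ (-(γ * k)))

/-- The pairs of a pin and a point in a bad square. -/
def S_BAD : Prop := ∀ (μ : Measure ℂ) [IsProbabilityMeasure μ] (R C s s' t t' ε α γ κ : ℝ)
  (I : ℕ → Finset (ℤ × ℤ)), 1 ≤ R → (∀ᵐ x ∂μ, ‖x‖ + 2 ≤ R) → 0 < C → 1 < s' → s' < s → s < 2 →
  Frm μ C s → (∀ k, ((I k).card : ℝ) ≤ C * 2 ^ (t * k)) → (∀ k, μ {y | qi k y ∉ I k} = 0) →
  t < t' → 0 < ε → 0 < γ → 0 < α → 0 < κ → t' - s + ε + 2 * γ < α * (s' - 1) →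
  2 * α + ε + 2 * γ < 1 → ∃ C' r : ℝ, 0 < C' ∧ 0 < r ∧ r < 1 ∧ ∃ k₀ : ℕ, ∀ k, k₀ ≤ k →
    (μ.prod μ) {p | 2 * κ ≤ ‖p.2 - p.1‖ ∧ ¬ Okq μ I R κ t' ε α γ k p.1 (qi k p.2)} ≤
      ENNReal.ofReal (C' * r ^ k)

/-- The recursion for a pin. -/
def S_PIN : Prop := ∀ (A : Set ℂ), IsCompact A → ∀ (μ : Measure ℂ) [IsProbabilityMeasure μ],
  μ Aᶜ = 0 → ∀ (x : ℂ) (α γ : ℝ), 0 < α → α < 1 → 0 < γ → ∀ (P : ℕ → ℤ × ℤ → Prop) (k₁ : ℕ)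
  (m₀ : ℝ), (∀ k, {q | P k q}.Finite) → (∀ k q, P k q → μ (ce k q) ≠ 0) →
  (∀ k q, P k q → dd (ds α (k + 1)) (ds α k) ((cm μ (ce k q)).map (dist x)) ≤
    (2 : ℝ) ^ k * (2 : ℝ) ^ (-(γ * k))) → 0 < m₀ →
  (∀ n, m₀ ≤ μ.real {y | ∀ k, k₁ ≤ k → k ≤ n → P k (qi k y)}) →
    0 < volume {r : ℝ | ∃ y ∈ A, r = dist x y}

/-- The theorem for a measure. -/
def S_CORE : Prop := ∀ (A : Set ℂ), IsCompact A → ∀ (μ : Measure ℂ) [IsProbabilityMeasure μ],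
  μ Aᶜ = 0 → ∀ (C s t : ℝ) (I : ℕ → Finset (ℤ × ℤ)), 0 < C → 1 < s → s < 2 → Frm μ C s →
  (∀ k, ((I k).card : ℝ) ≤ C * 2 ^ (t * k)) → (∀ k, ∀ y ∈ A, qi k y ∈ I k) → 2 * t + 1 < 3 * s →
    ∃ x ∈ A, 0 < volume {r : ℝ | ∃ y ∈ A, r = dist x y}

/-- `A` has upper box dimension at most `t`. -/
def BoxLE (A : Set (EuclideanSpace ℝ (Fin 2))) (t : ℝ) : Prop :=
  ∀ η : ℝ, 0 < η → ∃ C : ℝ, ∀ j : ℕ, ∃ T : Finset (EuclideanSpace ℝ (Fin 2)),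
    (T.card : ℝ) ≤ C * (2 : ℝ) ^ ((t + η) * j) ∧ A ⊆ ⋃ z ∈ T, closedBall z ((2 : ℝ)⁻¹ ^ j)

/-- `A` has packing dimension at most `t`: it is covered by countably many sets of upper box
dimension at most `t`. -/
def PackLE (A : Set (EuclideanSpace ℝ (Fin 2))) (t : ℝ) : Prop :=
  ∃ B : ℕ → Set (EuclideanSpace ℝ (Fin 2)), A ⊆ ⋃ i, B i ∧ ∀ i, BoxLE (B i) t

/-- The theorem: pinned distance sets of planar sets the packing dimension of which is not much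
larger than the Hausdorff dimension. -/
def S_MAIN2 : Prop := ∀ (A : Set (EuclideanSpace ℝ (Fin 2))) (t : ℝ), IsCompact A →
  PackLE A t → ENNReal.ofReal (2 * t + 1) < 3 * dimH A →
    ∃ x ∈ A, 0 < volume {r : ℝ | ∃ y ∈ A, r = dist x y}

end

end Pool.Agent.Y293.FA
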