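import Mathlib
import Pool.Agent.Y293.FA.Base
import Pool.Agent.Y293.FA.Stm3

/-!
# The recursion for a pin
-/

namespace Pool.Agent.Y293.FA

open MeasureTheory Set Filter Topology Metric
open scoped ENNReal

noncomputable section

/-- A sequence with summable relative increments is bounded. -/
theorem bounded_of_step (x : ℕ → ℝ) (hx0 : ∀ n, 0 ≤ x n) (D h : ℝ) (hD0 : 0 ≤ D) (hh0 : 0 ≤ h)
    (hh1 : h < 1) (hx : ∀ n, x (n + 1) ≤ x n * (1 + D * h ^ n)) :
    ∀ n, x n ≤ x 0 * Real.exp (D * (1 - h)⁻¹) := by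
  have hx2 : ∀ n, x n ≤ x 0 * Real.exp (D * ∑ i ∈ Finset.range n, h ^ i) := by
    intro n
    induction n with
    | zero => simp
    | succ n ih =>
      have h1 : 1 + D * h ^ n ≤ Real.exp (D * h ^ n) := by
        have := Real.add_one_le_exp (D * h ^ n)
        linarith
      calc x (n + 1) ≤ x n * (1 + D * h ^ n) := hx n
        _ ≤ (x 0 * Real.exp (D * ∑ i ∈ Finset.range n, h ^ i)) * Real.exp (D * h ^ n) := by
            gcongr
            exact mul_nonneg (hx0 0) (Real.exp_pos _).le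
        _ = _ := by rw [Finset.sum_range_succ, mul_assoc, ← Real.exp_add, mul_add]
  intro n
  refine (hx2 n).trans ?_
  gcongr
  · exact hx0 0
  · exact (Summable.sum_le_tsum _ (fun _ _ => pow_nonneg hh0 _)
      (summable_geometric_of_lt_one hh0 hh1)).trans_eq (tsum_geometric_of_lt_one hh0 hh1)

theorem measurable_qi (k : ℕ) : Measurable (qi k) := by
  unfold qi
  exact ((Complex.measurable_re.const_mul _).floor).prodMk
    ((Complex.measurable_im.const_mul _).floor)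

theorem measurableSet_ce (k : ℕ) (q : ℤ × ℤ) : MeasurableSet (ce k q) :=
  measurable_qi k (to_countable ({q} : Set (ℤ × ℤ))).measurableSet

theorem floor_parent {a b : ℝ} (h : ⌊2 * a⌋ = ⌊2 * b⌋) : ⌊a⌋ = ⌊b⌋ := by
  have h1 : ∀ c : ℝ, ⌊c⌋ = ⌊2 * c⌋ / 2 := by
    intro c
    have h4 := Int.floor_le c
    have h5 := Int.lt_floor_add_one c
    have h6 : ⌊2 * c⌋ = 2 * ⌊c⌋ ∨ ⌊2 * c⌋ = 2 * ⌊c⌋ + 1 := by
      rcases lt_or_ge (2 * c) (2 * (⌊c⌋ : ℝ) + 1) with h | h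
      · left
        rw [Int.floor_eq_iff]
        push_cast
        constructor <;> linarith
      · right
        rw [Int.floor_eq_iff]
        push_cast
        constructor <;> linarith
    omega
  rw [h1 a, h1 b, h]

theorem qi_parent {k : ℕ} {y z : ℂ} (h : qi (k + 1) y = qi (k + 1) z) : qi k y = qi k z := by
  unfold qi at h ⊢
  rw [Prod.mk.injEq] at h ⊢
  rw [pow_succ'] at h
  obtain ⟨h1, h2⟩ := h
  rw [mul_assoc, mul_assoc] at h1 h2
  exact ⟨floor_parent h1, floor_parent h2⟩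

theorem qi_of_le {k n : ℕ} (hkn : k ≤ n) {y z : ℂ} (h : qi n y = qi n z) : qi k y = qi k z := by
  induction n, hkn using Nat.le_induction with
  | base => exact h
  | succ n _ ih => exact ih (qi_parent h)

theorem norm_sub_yc (k : ℕ) (z : ℂ) : ‖z - yc k (qi k z)‖ ≤ 2 * (2⁻¹ : ℝ) ^ k := by
  have hp : (0 : ℝ) < 2 ^ k := by positivity
  have h1 : ∀ c : ℝ, |c - (⌊2 ^ k * c⌋ : ℝ) / 2 ^ k| ≤ (2⁻¹ : ℝ) ^ k := by
    intro c
    have h2 := Int.floor_le (2 ^ k * c)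
    have h3 := Int.lt_floor_add_one (2 ^ k * c)
    have h4 : c - (⌊2 ^ k * c⌋ : ℝ) / 2 ^ k = (2 ^ k * c - ⌊2 ^ k * c⌋) / 2 ^ k := by
      field_simp
    rw [h4, abs_of_nonneg (div_nonneg (by linarith) hp.le), inv_pow, ← one_div]
    exact div_le_div_of_nonneg_right (by linarith) hp.le
  refine (Complex.norm_le_abs_re_add_abs_im _).trans ?_
  have h2 := h1 z.re
  have h3 := h1 z.im
  have h4 : (z - yc k (qi k z)).re = z.re - (⌊2 ^ k * z.re⌋ : ℝ) / 2 ^ k := rfl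
  have h5 : (z - yc k (qi k z)).im = z.im - (⌊2 ^ k * z.im⌋ : ℝ) / 2 ^ k := rfl
  rw [h4, h5]
  linarith

theorem restrict_eq_smul_cm (μ : Measure ℂ) [IsFiniteMeasure μ] {Q : Set ℂ} (h : μ Q ≠ 0) :
    μ.restrict Q = μ Q • cm μ Q := by
  unfold cm
  rw [smul_smul, ENNReal.mul_inv_cancel h (measure_ne_top _ _), one_smul]

theorem cm_prob (μ : Measure ℂ) [IsFiniteMeasure μ] {Q : Set ℂ} (h : μ Q ≠ 0) :
    IsProbabilityMeasure (cm μ Q) := by
  refine ⟨?_⟩
  unfold cm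
  rw [Measure.smul_apply, Measure.restrict_apply_univ, smul_eq_mul,
    ENNReal.inv_mul_cancel h (measure_ne_top _ _)]

theorem ds_pos (α : ℝ) (k : ℕ) : 0 < ds α k := Real.rpow_pos_of_pos two_pos _

theorem ds_succ_le {α : ℝ} (hα : 0 < α) (k : ℕ) : ds α (k + 1) ≤ ds α k := by
  unfold ds
  refine Real.rpow_le_rpow_of_exponent_le one_le_two ?_
  push_cast
  nlinarith

theorem ds_le {α : ℝ} (hα : 0 < α) (k : ℕ) : ds α k ≤ 2 * (2⁻¹ : ℝ) ^ k := by
  have h1 : (2⁻¹ : ℝ) ^ k = (2 : ℝ) ^ (-(k : ℝ)) := by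
    rw [Real.rpow_neg two_pos.le, Real.rpow_natCast, inv_pow]
  have h2 : ds α k ≤ (2 : ℝ) ^ (-(k : ℝ)) := by
    unfold ds
    refine Real.rpow_le_rpow_of_exponent_le one_le_two ?_
    have : (0 : ℝ) ≤ k := Nat.cast_nonneg k
    nlinarith
  rw [h1]
  have h3 : (0 : ℝ) < (2 : ℝ) ^ (-(k : ℝ)) := Real.rpow_pos_of_pos two_pos _
  linarith

theorem tendsto_ds {α : ℝ} (hα : 0 < α) : Tendsto (ds α) atTop (𝓝 0) := by
  have h1 : ∀ k : ℕ, ds α k = ((2 : ℝ) ^ (-(1 + α))) ^ k := by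
    intro k
    unfold ds
    rw [← Real.rpow_natCast, ← Real.rpow_mul two_pos.le]
    congr 1
    ring
  have h2 : Tendsto (fun k : ℕ => ((2 : ℝ) ^ (-(1 + α))) ^ k) atTop (𝓝 0) := by
    refine tendsto_pow_atTop_nhds_zero_of_lt_one (Real.rpow_nonneg two_pos.le _) ?_
    exact Real.rpow_lt_one_of_one_lt_of_neg one_lt_two (by linarith)
  exact h2.congr fun k => (h1 k).symm

/-- The good set of a level. -/
def GG (P : ℕ → ℤ × ℤ → Prop) (k₁ n : ℕ) : Set ℂ := {y | ∀ k, k₁ ≤ k → k ≤ n → P k (qi k y)}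

theorem measurableSet_GG (P : ℕ → ℤ × ℤ → Prop) (k₁ n : ℕ) : MeasurableSet (GG P k₁ n) := by
  have h : GG P k₁ n = ⋂ k, {y | k₁ ≤ k → k ≤ n → P k (qi k y)} := by
    ext y
    simp [GG]
  rw [h]
  refine MeasurableSet.iInter fun k => ?_
  by_cases h1 : k₁ ≤ k ∧ k ≤ n
  · have h2 : {y | k₁ ≤ k → k ≤ n → P k (qi k y)} = qi k ⁻¹' {q | P k q} := by
      ext y
      simp [h1.1, h1.2]
    rw [h2]
    exact measurable_qi k (to_countable {q | P k q}).measurableSet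
  · have h2 : {y | k₁ ≤ k → k ≤ n → P k (qi k y)} = univ := by
      ext y
      simp only [mem_setOf_eq, mem_univ, iff_true]
      intro h3 h4
      exact absurd ⟨h3, h4⟩ h1
    rw [h2]
    exact MeasurableSet.univ

theorem GG_anti (P : ℕ → ℤ × ℤ → Prop) (k₁ n : ℕ) : GG P k₁ (n + 1) ⊆ GG P k₁ n :=
  fun _ hy k h1 h2 => hy k h1 (h2.trans (Nat.le_succ n))

/-- The index set of the good set. -/
def SG (P : ℕ → ℤ × ℤ → Prop) (k₁ n : ℕ) : Set (ℤ × ℤ) := {q | ∃ y ∈ GG P k₁ n, qi n y = q}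

theorem GG_eq (P : ℕ → ℤ × ℤ → Prop) (k₁ n : ℕ) :
    GG P k₁ n = ⋃ q ∈ SG P k₁ n, ce n q := by
  ext y
  simp only [mem_iUnion, exists_prop]
  constructor
  · intro hy
    exact ⟨qi n y, ⟨y, hy, rfl⟩, rfl⟩
  · rintro ⟨q, ⟨z, hz, hzq⟩, hy⟩ k h1 h2
    have h3 : qi n y = qi n z := by
      rw [hzq]
      exact hy
    rw [qi_of_le h2 h3]
    exact hz k h1 h2

theorem SG_P {P : ℕ → ℤ × ℤ → Prop} {k₁ n : ℕ} (h : k₁ ≤ n) {q : ℤ × ℤ} (hq : q ∈ SG P k₁ n) :
    P n q := by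
  obtain ⟨y, hy, rfl⟩ := hq
  exact hy n h le_rfl

/-- One step. -/
theorem pin_step (hadj : S_ADJ) : ∃ C₁ : ℝ, 0 < C₁ ∧ ∀ (μ : Measure ℂ) [IsProbabilityMeasure μ]
    (x : ℂ) (α γ : ℝ), 0 < α → ∀ (P : ℕ → ℤ × ℤ → Prop) (k₁ : ℕ), (∀ k, {q | P k q}.Finite) →
    (∀ k q, P k q → μ (ce k q) ≠ 0) →
    (∀ k q, P k q → dd (ds α (k + 1)) (ds α k) ((cm μ (ce k q)).map (dist x)) ≤
      (2 : ℝ) ^ k * (2 : ℝ) ^ (-(γ * k))) → ∀ n, k₁ ≤ n →
    dd (ds α (n + 1)) (ds α n) ((μ.restrict (GG P k₁ n)).map (dist x)) ≤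
      C₁ * (2 : ℝ) ^ (-(γ * n)) * qq (ds α n) ((μ.restrict (GG P k₁ n)).map (dist x)) := by
  classical
  obtain ⟨C₁, hC₁, hadj⟩ := hadj
  refine ⟨C₁ * 2, by linarith, ?_⟩
  intro μ _ x α γ hα P k₁ hfin hne hdd n hn
  have hS : (SG P k₁ n).Finite := (hfin n).subset fun q hq => SG_P hn hq
  let S : Finset (ℤ × ℤ) := hS.toFinset
  have hSP : ∀ i : S, P n i.1 := fun i => SG_P hn (hS.mem_toFinset.1 i.2)
  have hdx : Measurable (dist x) := by fun_prop
  have hs : (μ.restrict (GG P k₁ n)).map (dist x) =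
      ∑ i : S, ENNReal.ofReal (μ.real (ce n i.1)) • (cm μ (ce n i.1)).map (dist x) := by
    ext T hT
    rw [Measure.map_apply hdx hT, Measure.restrict_apply (hdx hT), Measure.finsetSum_apply]
    have h1 : dist x ⁻¹' T ∩ GG P k₁ n = ⋃ q ∈ S, dist x ⁻¹' T ∩ ce n q := by
      rw [GG_eq, inter_iUnion₂]
      ext y
      simp only [mem_iUnion, exists_prop, S, hS.mem_toFinset]
    rw [h1, measure_biUnion_finset]
    · rw [← Finset.sum_coe_sort S]
      refine Finset.sum_congr rfl fun i _ => ?_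
      rw [ofReal_measureReal, Measure.smul_apply, smul_eq_mul, Measure.map_apply hdx hT, cm,
        Measure.smul_apply, smul_eq_mul, Measure.restrict_apply (hdx hT), ← mul_assoc,
        ENNReal.mul_inv_cancel (hne n i.1 (hSP i)) (measure_ne_top _ _), one_mul]
    · intro q _ q' _ hqq
      refine disjoint_left.2 fun y hy hy' => hqq ?_
      exact hy.2.symm.trans hy'.2
    · intro q _
      exact (hdx hT).inter (measurableSet_ce n q)
  haveI : ∀ i : S, IsProbabilityMeasure ((cm μ (ce n i.1)).map (dist x)) := fun i =>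
    haveI := cm_prob μ (hne n i.1 (hSP i))
    Measure.isProbabilityMeasure_map hdx.aemeasurable
  have h4 : ∀ i : S, ((cm μ (ce n i.1)).map (dist x))
      (Icc (dist x (yc n i.1) - 2 * (2⁻¹ : ℝ) ^ n) (dist x (yc n i.1) + 2 * (2⁻¹ : ℝ) ^ n))ᶜ
        = 0 := by
    intro i
    rw [Measure.map_apply hdx measurableSet_Icc.compl, cm, Measure.smul_apply, smul_eq_mul,
      Measure.restrict_apply (hdx measurableSet_Icc.compl)]
    have h5 : dist x ⁻¹' (Icc (dist x (yc n i.1) - 2 * (2⁻¹ : ℝ) ^ n)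
        (dist x (yc n i.1) + 2 * (2⁻¹ : ℝ) ^ n))ᶜ ∩ ce n i.1 = ∅ := by
      refine eq_empty_of_forall_notMem ?_
      rintro z ⟨hz, hz2⟩
      refine hz ?_
      have h6 := norm_sub_yc n z
      have h7 : qi n z = i.1 := hz2
      rw [h7] at h6
      have h8 := abs_dist_sub_le z (yc n i.1) x
      rw [dist_comm z x, dist_comm (yc n i.1) x, dist_eq_norm z] at h8
      have h9 := abs_le.1 (h8.trans h6)
      rw [mem_Icc]
      constructor <;> linarith [h9.1, h9.2]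
    rw [h5, measure_empty, mul_zero]
  have hB : (0 : ℝ) ≤ (2 : ℝ) ^ n * (2 : ℝ) ^ (-(γ * n)) := by positivity
  have h7 := hadj S (fun i => μ.real (ce n i.1)) (fun i => (cm μ (ce n i.1)).map (dist x))
    (fun i => dist x (yc n i.1)) (2 * (2⁻¹ : ℝ) ^ n) (ds α (n + 1)) (ds α n)
    ((2 : ℝ) ^ n * (2 : ℝ) ^ (-(γ * n))) (fun _ => measureReal_nonneg) (ds_pos _ _)
    (ds_succ_le hα n) (ds_le hα n) hB h4 (fun i => hdd n i.1 (hSP i))
  rw [← hs] at h7
  refine h7.trans_eq ?_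
  have h8 : (2 : ℝ) ^ n * (2⁻¹ : ℝ) ^ n = 1 := by
    rw [← mul_pow]
    norm_num
  calc C₁ * ((2 : ℝ) ^ n * (2 : ℝ) ^ (-(γ * n))) * (2 * (2⁻¹ : ℝ) ^ n) *
        qq (ds α n) ((μ.restrict (GG P k₁ n)).map (dist x))
      = ((2 : ℝ) ^ n * (2⁻¹ : ℝ) ^ n) * (C₁ * 2 * (2 : ℝ) ^ (-(γ * n)) *
        qq (ds α n) ((μ.restrict (GG P k₁ n)).map (dist x))) := by ring
    _ = _ := by rw [h8, one_mul]

/-- The recursion for a pin. -/
theorem pin (hadj : S_ADJ) (hpos : S_POS) : S_PIN := by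
  obtain ⟨C₁, hC₁, hstep⟩ := pin_step hadj
  intro A hA μ _ hμA x α γ hα _ hγ P k₁ m₀ hfin hne hdd hm₀ hmass
  have hdx : Measurable (dist x) := by fun_prop
  let f : ℕ → Measure ℝ := fun n => (μ.restrict (GG P k₁ (k₁ + n))).map (dist x)
  haveI : ∀ n, IsFiniteMeasure (f n) := fun n => Measure.isFiniteMeasure_map _ _
  have hf : ∀ n, f (n + 1) ≤ f n := fun n =>
    Measure.map_mono (Measure.restrict_mono (GG_anti P k₁ (k₁ + n)) le_rfl) hdx
  let X : ℕ → ℝ := fun n => √(qq (ds α (k₁ + n)) (f n))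
  have hX0 : ∀ n, 0 ≤ X n := fun n => Real.sqrt_nonneg _
  let D : ℝ := √C₁
  let h : ℝ := (2 : ℝ) ^ (-(γ / 2))
  have hh0 : 0 ≤ h := Real.rpow_nonneg two_pos.le _
  have hh1 : h < 1 := Real.rpow_lt_one_of_one_lt_of_neg one_lt_two (by linarith)
  have hX : ∀ n, X (n + 1) ≤ X n * (1 + D * h ^ n) := by
    intro n
    have h1 : X (n + 1) ≤ √(qq (ds α (k₁ + n + 1)) (f n)) :=
      Real.sqrt_le_sqrt (mono _ _ _ (ds_pos _ _) (hf n))
    have h2 := mink (f n) (ds α (k₁ + n + 1)) (ds α (k₁ + n)) (ds_pos _ _) (ds_pos _ _)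
    have h3 := hstep μ x α γ hα P k₁ hfin hne hdd (k₁ + n) (Nat.le_add_right _ _)
    have h4 : (2 : ℝ) ^ (-(γ * ((k₁ + n : ℕ) : ℝ))) ≤ (h ^ n) ^ 2 := by
      have h5 : (h ^ n) ^ 2 = (2 : ℝ) ^ (-(γ * (n : ℝ))) := by
        rw [← pow_mul, ← Real.rpow_natCast, ← Real.rpow_mul two_pos.le]
        congr 1
        push_cast
        ring
      rw [h5]
      refine Real.rpow_le_rpow_of_exponent_le one_le_two ?_
      push_cast
      have : (0 : ℝ) ≤ k₁ := Nat.cast_nonneg _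
      nlinarith
    have h5 : √(dd (ds α (k₁ + n + 1)) (ds α (k₁ + n)) (f n)) ≤ D * h ^ n * X n := by
      have h6 : dd (ds α (k₁ + n + 1)) (ds α (k₁ + n)) (f n) ≤
          (C₁ * (h ^ n) ^ 2) * qq (ds α (k₁ + n)) (f n) := by
        refine h3.trans ?_
        refine mul_le_mul_of_nonneg_right ?_ (qq_nonneg _ _)
        exact mul_le_mul_of_nonneg_left h4 hC₁.le
      have h7 : √(C₁ * (h ^ n) ^ 2) = D * h ^ n := by
        rw [Real.sqrt_mul hC₁.le, Real.sqrt_sq (pow_nonneg hh0 _)]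
      calc _ ≤ √((C₁ * (h ^ n) ^ 2) * qq (ds α (k₁ + n)) (f n)) := Real.sqrt_le_sqrt h6
        _ = √(C₁ * (h ^ n) ^ 2) * X n := Real.sqrt_mul' _ (qq_nonneg _ _)
        _ = _ := by rw [h7]
    calc X (n + 1) ≤ _ := h1
      _ ≤ _ := h2
      _ ≤ X n + D * h ^ n * X n := add_le_add le_rfl h5
      _ = _ := by ring
  have hB := bounded_of_step X hX0 D h (Real.sqrt_nonneg _) hh0 hh1 hX
  have hK : IsCompact {r : ℝ | ∃ y ∈ A, r = dist x y} := by
    have h1 : {r : ℝ | ∃ y ∈ A, r = dist x y} = dist x '' A := by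
      ext r
      constructor
      · rintro ⟨y, hy, rfl⟩
        exact ⟨y, hy, rfl⟩
      · rintro ⟨y, hy, rfl⟩
        exact ⟨y, hy, rfl⟩
    rw [h1]
    exact hA.image (by fun_prop)
  refine hpos _ hK (fun n => ds α (k₁ + n)) (fun n => ds_pos _ _) ?_ f ?_ m₀
    ((X 0 * Real.exp (D * (1 - h)⁻¹)) ^ 2) hm₀ ?_ ?_
  · have := (tendsto_ds hα).comp (tendsto_add_atTop_nat k₁)
    refine this.congr fun n => ?_
    simp only [Function.comp]
    rw [add_comm]
  · intro n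
    have h1 : f n {r : ℝ | ∃ y ∈ A, r = dist x y}ᶜ ≤ μ Aᶜ := by
      simp only [f]
      rw [Measure.map_apply hdx hK.measurableSet.compl]
      refine (Measure.restrict_apply_le _ _).trans (measure_mono ?_)
      intro z hz hzA
      exact hz ⟨z, hzA, rfl⟩
    exact le_antisymm (h1.trans_eq hμA) zero_le
  · intro n
    have h1 : (f n).real univ = μ.real (GG P k₁ (k₁ + n)) := by
      simp only [f]
      rw [map_measureReal_apply hdx MeasurableSet.univ, preimage_univ]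
      simp
    rw [h1]
    exact hmass (k₁ + n)
  · intro n
    have h1 : qq (ds α (k₁ + n)) (f n) = X n ^ 2 := (Real.sq_sqrt (qq_nonneg _ _)).symm
    rw [h1]
    exact pow_le_pow_left₀ (hX0 n) (hB n) 2

end

end Pool.Agent.Y293.FA
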