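import Mathlib
import Pool.Agent.Y293.FA.Stm3

/-!
# Pinned distance sets of regular planar sets, pins in another set: statements
-/

namespace Pool.Agent.Y293.FA

open MeasureTheory Set Filter Topology Metric
open scoped ENNReal

noncomputable section

/-- The estimate for one small set. -/
def S_CUBE2 : Prop := ∀ R κ : ℝ, 0 < R → 0 < κ → ∃ C : ℝ, 0 < C ∧
  ∀ (ρ μ : Measure ℂ) [IsProbabilityMeasure ρ] [IsProbabilityMeasure μ], (∀ᵐ x ∂ρ, ‖x‖ ≤ R) →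
  ∀ Q : Set ℂ, MeasurableSet Q → μ Q ≠ 0 → ∀ (y : ℂ) (l : ℝ), ‖y‖ ≤ R → 0 < l → l ≤ 1 →
  (∀ z ∈ Q, ‖z - y‖ ≤ 2 * l) → ∀ a b V L : ℝ, 0 < a → a ≤ b → 0 ≤ V → 1 ≤ L →
  ∫⁻ θ in Ioc 0 (2 * Real.pi),
    ENNReal.ofReal (dd (a / l) (b / l) ((rs y l (cm μ Q)).map (pr θ))) ≤ ENNReal.ofReal V →
  ∫⁻ x in {x | κ ≤ ‖y - x‖ ∧ ρ (tube (4 * R * l) x y) ≤ ENNReal.ofReal (L * l)},
    ENNReal.ofReal (dd a b ((cm μ Q).map (dist x))) ∂ρ ≤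
      ENNReal.ofReal (C * L * (V / l + l ^ 2 / a ^ 2))

/-- The good squares of a pin. -/
def Okq2 (ρ μ : Measure ℂ) (I : ℕ → Finset (ℤ × ℤ)) (R κ t' ε α γ : ℝ) (k : ℕ) (x : ℂ)
    (q : ℤ × ℤ) : Prop :=
  q ∈ I k ∧ ENNReal.ofReal ((2 : ℝ) ^ (-(t' * k))) ≤ μ (ce k q) ∧ κ ≤ ‖yc k q - x‖ ∧
  ρ (tube (4 * R * (2⁻¹ : ℝ) ^ k) x (yc k q)) ≤
    ENNReal.ofReal ((2 : ℝ) ^ (ε * k) * (2⁻¹ : ℝ) ^ k) ∧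
  dd (ds α (k + 1)) (ds α k) ((cm μ (ce k q)).map (dist x)) ≤
    (2 : ℝ) ^ k * (2 : ℝ) ^ (-(γ * k))

/-- The pairs of a pin and a point with a heavy tube. -/
def S_BT2 : Prop := ∀ (ρ μ : Measure ℂ) [IsProbabilityMeasure ρ] [IsProbabilityMeasure μ]
  (R C s ε κ : ℝ), 1 ≤ R → (∀ᵐ x ∂ρ, ‖x‖ + 2 ≤ R) → (∀ᵐ x ∂μ, ‖x‖ + 2 ≤ R) → 0 < C → 1 < s →
  s < 2 → Frm ρ C s → Frm μ C s → 0 < ε → 0 < κ →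
  ∃ C' r : ℝ, 0 < C' ∧ 0 < r ∧ r < 1 ∧ ∃ k₀ : ℕ, ∀ k, k₀ ≤ k →
    (ρ.prod μ) {p | 2 * κ ≤ ‖p.2 - p.1‖ ∧ ENNReal.ofReal ((2 : ℝ) ^ (ε * k) * (2⁻¹ : ℝ) ^ k) <
      ρ (tube (4 * R * (2⁻¹ : ℝ) ^ k) p.1 (yc k (qi k p.2)))} ≤ ENNReal.ofReal (C' * r ^ k)

/-- The pins for which a square is bad. -/
def S_BD2 : Prop := ∀ (ρ μ : Measure ℂ) [IsProbabilityMeasure ρ] [IsProbabilityMeasure μ]
  (R C s s' t' ε α γ κ : ℝ), 1 ≤ R →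
  (∀ᵐ x ∂ρ, ‖x‖ + 2 ≤ R) → (∀ᵐ x ∂μ, ‖x‖ + 2 ≤ R) → 0 < C → 1 < s' → s' < s → s < 2 →
  Frm μ C s → 0 < ε → 0 < γ →
  0 < α → 0 < κ → t' - s + ε + 2 * γ < α * (s' - 1) → 2 * α + ε + 2 * γ < 1 →
  ∃ C' : ℝ, 0 < C' ∧ ∀ (k : ℕ) (q : ℤ × ℤ),
    ENNReal.ofReal ((2 : ℝ) ^ (-(t' * k))) ≤ μ (ce k q) →
    ρ {x | κ ≤ ‖yc k q - x‖ ∧ ρ (tube (4 * R * (2⁻¹ : ℝ) ^ k) x (yc k q)) ≤
        ENNReal.ofReal ((2 : ℝ) ^ (ε * k) * (2⁻¹ : ℝ) ^ k) ∧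
      (2 : ℝ) ^ k * (2 : ℝ) ^ (-(γ * k)) <
        dd (ds α (k + 1)) (ds α k) ((cm μ (ce k q)).map (dist x))} ≤
      ENNReal.ofReal (C' * (2 : ℝ) ^ (-(γ * k)))

/-- The pairs of a pin and a point in a bad square. -/
def S_BAD2 : Prop := ∀ (ρ μ : Measure ℂ) [IsProbabilityMeasure ρ] [IsProbabilityMeasure μ]
  (R C u s s' t t' ε α γ κ : ℝ)
  (I : ℕ → Finset (ℤ × ℤ)), 1 ≤ R → (∀ᵐ x ∂ρ, ‖x‖ + 2 ≤ R) → (∀ᵐ x ∂μ, ‖x‖ + 2 ≤ R) → 0 < C →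
  1 < u → u < 2 → Frm ρ C u → Frm μ C u → 1 < s' → s' < s → s < 2 →
  Frm μ C s → (∀ k, ((I k).card : ℝ) ≤ C * 2 ^ (t * k)) → (∀ k, μ {y | qi k y ∉ I k} = 0) →
  t < t' → 0 < ε → 0 < γ → 0 < α → 0 < κ → t' - s + ε + 2 * γ < α * (s' - 1) →
  2 * α + ε + 2 * γ < 1 → ∃ C' r : ℝ, 0 < C' ∧ 0 < r ∧ r < 1 ∧ ∃ k₀ : ℕ, ∀ k, k₀ ≤ k →
    (ρ.prod μ) {p | 2 * κ ≤ ‖p.2 - p.1‖ ∧ ¬ Okq2 ρ μ I R κ t' ε α γ k p.1 (qi k p.2)} ≤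
      ENNReal.ofReal (C' * r ^ k)

/-- The theorem for measures. -/
def S_CORE2 : Prop := ∀ (A F : Set ℂ), IsCompact A → IsCompact F →
  ∀ (ρ μ : Measure ℂ) [IsProbabilityMeasure ρ] [IsProbabilityMeasure μ],
  ρ Fᶜ = 0 → μ Aᶜ = 0 → ∀ (C u s t : ℝ) (I : ℕ → Finset (ℤ × ℤ)), 0 < C → 1 < u → u < 2 →
  Frm ρ C u → 1 < s → s < 2 → Frm μ C s →
  (∀ k, ((I k).card : ℝ) ≤ C * 2 ^ (t * k)) → (∀ k, ∀ y ∈ A, qi k y ∈ I k) → 2 * t + 1 < 3 * s →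
    ∃ x ∈ F, 0 < volume {r : ℝ | ∃ y ∈ A, r = dist x y}

/-- The theorem: pinned distance sets of planar sets the packing dimension of which is not much
larger than the Hausdorff dimension, pins in an arbitrary set of dimension greater than one. -/
def S_MAIN3 : Prop := ∀ (A F : Set (EuclideanSpace ℝ (Fin 2))) (t : ℝ), IsCompact A →
  IsCompact F → PackLE A t → ENNReal.ofReal (2 * t + 1) < 3 * dimH A → 1 < dimH F →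
    ∃ x ∈ F, 0 < volume {r : ℝ | ∃ y ∈ A, r = dist x y}

end

end Pool.Agent.Y293.FA
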