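import Mathlib
import Pool.Agent.Y484.FA.Bd
import Pool.Agent.Y293.FA.Stm4

/-!
# Pins for which a square is bad (after helper484)
-/

namespace Pool.Agent.Y293.FA

open MeasureTheory Set Filter Topology Metric Pool.Agent.Y484.FA
open scoped ENNReal

theorem bd2 : S_ENERGY → S_CUBEN → S_MEAS → S_CUBE2 → S_BD2 := by
  intro hE hN hM hC ρ μ _ _ R C s s' t' ε α γ κ hR hsuppρ hsupp hC0 hs' hss hs2 hF hε hγ hα hκ h1 h2
  obtain ⟨CE, hCE, hE⟩ := hE
  obtain ⟨D, hD, hN⟩ := hN C s s' hC0 (by linarith) hss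
  obtain ⟨CQ, hCQ, hC⟩ := hC R κ (by linarith) hκ
  refine ⟨CQ * (CE * D + (2 : ℝ) ^ (2 * (1 + α))), by positivity, fun k q hq => ?_⟩
  have hQ0 : μ (ce k q) ≠ 0 := by
    intro h
    rw [h] at hq
    have : (0 : ℝ) < (2 : ℝ) ^ (-(t' * k)) := by positivity
    exact absurd (ENNReal.ofReal_pos.mpr this) (not_lt.mpr hq)
  have hmQ := meas_ce k q
  have hnear := ce_near k q
  have hl0 : (0 : ℝ) < (2⁻¹ : ℝ) ^ k := by positivity
  have hl1 : (2⁻¹ : ℝ) ^ k ≤ 1 := pow_le_one₀ (by norm_num) (by norm_num)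
  have hy : ‖yc k q‖ ≤ R := by
    have h3 : ∃ z ∈ ce k q, ‖z‖ + 2 ≤ R := by
      by_contra hcon
      apply hQ0
      refine measure_mono_null ?_ (ae_iff.mp hsupp)
      intro z hz hz2
      exact hcon ⟨z, hz, hz2⟩
    obtain ⟨z, hz, hz2⟩ := h3
    have h4 := hnear z hz
    have h5 := norm_sub_norm_le (yc k q) z
    rw [norm_sub_rev] at h5
    linarith
  have := prob_cm μ hQ0
  have : IsProbabilityMeasure (rs (yc k q) ((2⁻¹ : ℝ) ^ k) (cm μ (ce k q))) := by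
    unfold rs
    exact Measure.isProbabilityMeasure_map
      ((measurable_id.sub_const _).div_const _).aemeasurable
  -- the energy
  have hen := hN μ hF (ce k q) hmQ hQ0 (yc k q) ((2⁻¹ : ℝ) ^ k) hl0 hnear
  have hp0 : (0 : ℝ) < (2 : ℝ) ^ (-(t' * k)) := by positivity
  have hls : (0 : ℝ) < ((2⁻¹ : ℝ) ^ k) ^ s := by positivity
  have hen2 : en s' (rs (yc k q) ((2⁻¹ : ℝ) ^ k) (cm μ (ce k q))) ≤
      ENNReal.ofReal (D * ((2⁻¹ : ℝ) ^ k) ^ s / (2 : ℝ) ^ (-(t' * k))) := by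
    refine hen.trans ?_
    rw [ENNReal.ofReal_div_of_pos hp0]
    exact ENNReal.div_le_div_left hq _
  have ha0 : 0 < ds α (k + 1) := by unfold ds; positivity
  have hab : ds α (k + 1) ≤ ds α k := by
    unfold ds
    apply Real.rpow_le_rpow_of_exponent_le one_le_two
    push_cast
    nlinarith
  have hang := hE (rs (yc k q) ((2⁻¹ : ℝ) ^ k) (cm μ (ce k q))) s'
    (D * ((2⁻¹ : ℝ) ^ k) ^ s / (2 : ℝ) ^ (-(t' * k))) hs' (by linarith) (by positivity) hen2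
    (ds α (k + 1) / (2⁻¹ : ℝ) ^ k) (ds α k / (2⁻¹ : ℝ) ^ k) (by positivity)
    (div_le_div_of_nonneg_right hab hl0.le)
  have hb0 : 0 < ds α k := lt_of_lt_of_le ha0 hab
  have hcube := hC ρ μ (hsuppρ.mono fun x hx => by linarith) (ce k q) hmQ hQ0 (yc k q)
    ((2⁻¹ : ℝ) ^ k) hy hl0 hl1 hnear (ds α (k + 1)) (ds α k) _ ((2 : ℝ) ^ (ε * k)) ha0 hab
    (by positivity) (Real.one_le_rpow one_le_two (by positivity)) hang
  -- Chebyshev
  have hmeas : Measurable fun x : ℂ =>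
      ENNReal.ofReal (dd (ds α (k + 1)) (ds α k) ((cm μ (ce k q)).map (dist x))) :=
    (hM (cm μ (ce k q)) _ _ ha0 hb0).ennreal_ofReal
  have hT : (0 : ℝ) < (2 : ℝ) ^ k * (2 : ℝ) ^ (-(γ * k)) := by positivity
  have hche := meas_ge_le_lintegral_div (μ := ρ.restrict {x | κ ≤ ‖yc k q - x‖ ∧
      ρ (tube (4 * R * (2⁻¹ : ℝ) ^ k) x (yc k q)) ≤
        ENNReal.ofReal ((2 : ℝ) ^ (ε * k) * (2⁻¹ : ℝ) ^ k)}) hmeas.aemeasurable
    (ε := ENNReal.ofReal ((2 : ℝ) ^ k * (2 : ℝ) ^ (-(γ * k))))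
    (ENNReal.ofReal_pos.mpr hT).ne' ENNReal.ofReal_ne_top
  rw [Measure.restrict_apply (measurableSet_le measurable_const hmeas)] at hche
  refine (measure_mono ?_).trans (hche.trans ((ENNReal.div_le_div_right hcube _).trans ?_))
  · rintro x ⟨hx1, hx2, hx3⟩
    exact ⟨ENNReal.ofReal_le_ofReal hx3.le, hx1, hx2⟩
  · rw [← ENNReal.ofReal_div_of_pos hT]
    exact ENNReal.ofReal_le_ofReal (num CQ CE D s s' t' ε α γ k hCQ hCE hD h1 h2)

end Pool.Agent.Y293.FA
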