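import Mathlib
import Pool.Agent.Y68.FA.Bt
import Pool.Agent.Y293.FA.Stm4

/-!
# Pairs of a pin and a point with a heavy tube (after helper68)
-/

namespace Pool.Agent.Y293.FA

open MeasureTheory Set Filter Topology Metric Pool.Agent.Y68.FA
open scoped ENNReal

theorem bt2 : S_RAD → S_BT2 := by
  intro hrad ρ μ _ _ R C s ε κ hR haeρ haeμ hC hs hs2 hFρ hFμ hε hκ
  have hR0 : 0 < R := by linarith
  have haeR : ∀ᵐ x ∂ρ, ‖x‖ ≤ R := haeρ.mono fun x hx => by linarith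
  have haeR' : ∀ᵐ x ∂μ, ‖x‖ ≤ R := haeμ.mono fun x hx => by linarith
  let π : Measure ℂ := (2⁻¹ : ℝ≥0∞) • (ρ + μ)
  have hπ : IsProbabilityMeasure π := by
    refine ⟨?_⟩
    simp only [π]
    rw [Measure.smul_apply, Measure.add_apply, measure_univ, measure_univ, smul_eq_mul,
      one_add_one_eq_two, ENNReal.inv_mul_cancel (by norm_num) (by norm_num)]
  have haeπ : ∀ᵐ x ∂π, ‖x‖ ≤ R :=
    Measure.ae_smul_measure (ae_add_measure_iff.2 ⟨haeR, haeR'⟩) _
  have hFπ : Frm π C s := by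
    intro x r hr
    simp only [π]
    rw [Measure.smul_apply, Measure.add_apply, smul_eq_mul]
    calc (2⁻¹ : ℝ≥0∞) * (ρ (closedBall x r) + μ (closedBall x r)) ≤
        2⁻¹ * (ENNReal.ofReal (C * r ^ s) + ENNReal.ofReal (C * r ^ s)) := by
          gcongr
          · exact hFρ x r hr
          · exact hFμ x r hr
      _ = ENNReal.ofReal (C * r ^ s) := by
          rw [← two_mul, ← mul_assoc, ENNReal.inv_mul_cancel (by norm_num) (by norm_num), one_mul]
  have hρπ : ∀ S : Set ℂ, ρ S ≤ 2 * π S := by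
    intro S
    simp only [π]
    rw [Measure.smul_apply, Measure.add_apply, smul_eq_mul, ← mul_assoc,
      ENNReal.mul_inv_cancel (by norm_num) (by norm_num), one_mul]
    exact le_self_add
  have hprod : ∀ S : Set (ℂ × ℂ), (ρ.prod μ) S ≤ 4 * (π.prod π) S := by
    intro S
    have h1 : ρ ≤ (2 : ℝ≥0∞) • π := by
      refine Measure.le_iff.2 fun T _ => ?_
      rw [Measure.smul_apply, smul_eq_mul]
      exact hρπ T
    have h2 : μ ≤ (2 : ℝ≥0∞) • π := by
      refine Measure.le_iff.2 fun T _ => ?_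
      simp only [π]
      rw [Measure.smul_apply, Measure.smul_apply, Measure.add_apply, smul_eq_mul, smul_eq_mul,
        ← mul_assoc, ENNReal.mul_inv_cancel (by norm_num) (by norm_num), one_mul]
      exact le_add_self
    have h3 : ρ.prod μ ≤ ((2 : ℝ≥0∞) • π).prod ((2 : ℝ≥0∞) • π) := Measure.prod_mono h1 h2
    have h4 : ((2 : ℝ≥0∞) • π).prod ((2 : ℝ≥0∞) • π) = (4 : ℝ≥0∞) • π.prod π := by
      rw [Measure.prod_smul_left, Measure.prod_smul_right, smul_smul]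
      norm_num
    rw [h4] at h3
    exact h3 S
  obtain ⟨C₀, hC₀, c, hc, hmain⟩ := hrad π R C s haeπ hC hs hs2 hFπ
  set W : ℝ := 4 * R + 6 * R / κ + 1 with hW
  have hW0 : 0 < W := by positivity
  set W2 : ℝ := 2 * W with hW2
  have hW20 : 0 < W2 := by positivity
  have e1 : Tendsto (fun k : ℕ => W * (2⁻¹ : ℝ) ^ k) atTop (𝓝 0) := by
    have := (tendsto_pow_atTop_nhds_zero_of_lt_one (r := (2⁻¹ : ℝ)) (by norm_num)
      (by norm_num)).const_mul W
    rwa [mul_zero] at this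
  have e2 : Tendsto (fun k : ℕ => (2 : ℝ) ^ (ε * k)) atTop atTop := by
    have h1 : (fun k : ℕ => (2 : ℝ) ^ (ε * k)) = fun k : ℕ => ((2 : ℝ) ^ ε) ^ k := by
      funext k
      rw [Real.rpow_mul (by norm_num), Real.rpow_natCast]
    rw [h1]
    exact tendsto_pow_atTop_atTop_of_one_lt (Real.one_lt_rpow (by norm_num) hε)
  obtain ⟨k₀, hk₀⟩ := eventually_atTop.1
    ((e1.eventually (ge_mem_nhds (show (0 : ℝ) < 1 by norm_num))).and (e2.eventually_ge_atTop W2))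
  refine ⟨4 * (C₀ * W2 ^ c), (2 : ℝ) ^ (-(c * ε)), by positivity, by positivity,
    Real.rpow_lt_one_of_one_lt_of_neg (by norm_num) (by nlinarith), k₀, fun k hk => ?_⟩
  obtain ⟨hw1, hM⟩ := hk₀ k hk
  set l : ℝ := (2⁻¹ : ℝ) ^ k with hl
  have hl0 : 0 < l := by positivity
  have hl1 : l ≤ 1 := pow_le_one₀ (by norm_num) (by norm_num)
  have hM1 : 1 ≤ (2 : ℝ) ^ (ε * k) / W2 := by
    rw [le_div_iff₀ hW20, one_mul]
    exact hM
  have key := hmain (W * l) (by positivity) hw1 _ hM1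
  have e3 : (2 : ℝ) ^ (ε * k) / W2 * (W * l) = 2⁻¹ * ((2 : ℝ) ^ (ε * k) * l) := by
    rw [hW2]
    field_simp
  rw [e3] at key
  have e4 : C₀ * ((2 : ℝ) ^ (ε * k) / W2) ^ (-c) = C₀ * W2 ^ c * ((2 : ℝ) ^ (-(c * ε))) ^ k := by
    have h1 : ((2 : ℝ) ^ (ε * k) / W2) ^ (-c) = W2 ^ c * ((2 : ℝ) ^ (-(c * ε))) ^ k := by
      rw [Real.div_rpow (by positivity) hW20.le, ← Real.rpow_mul (by norm_num),
        Real.rpow_neg hW20.le, div_inv_eq_mul, ← Real.rpow_natCast, ← Real.rpow_mul (by norm_num),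
        mul_comm (W2 ^ c)]
      congr 2
      ring
    rw [h1, mul_assoc]
  rw [e4] at key
  have hfin : (π.prod π) {p | 2 * κ ≤ ‖p.2 - p.1‖ ∧ ENNReal.ofReal ((2 : ℝ) ^ (ε * k) * l) <
      ρ (tube (4 * R * l) p.1 (yc k (qi k p.2)))} ≤
      ENNReal.ofReal (C₀ * W2 ^ c * ((2 : ℝ) ^ (-(c * ε))) ^ k) := by
    refine le_trans (measure_mono_ae ?_) key
    have h1 : ∀ᵐ p ∂(π.prod π), ‖p.1‖ ≤ R := Measure.quasiMeasurePreserving_fst.ae haeπ
    filter_upwards [h1] with p hp1 hp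
    obtain ⟨hp2, hp3⟩ := hp
    have h5 : ρ (tube (4 * R * l) p.1 (yc k (qi k p.2))) ≤ 2 * π (tube (W * l) p.1 p.2) := by
      refine (measure_mono_ae ?_).trans (hρπ _)
      filter_upwards [haeR] with z hz hz2
      exact mem_tube hR0 hκ hl0 hl1 hp1 hz hp2 (Pool.Agent.Y68.FA.norm_sub_yc k p.2) hz2
    have h6 := hp3.trans_le h5
    show ENNReal.ofReal (2⁻¹ * ((2 : ℝ) ^ (ε * k) * l)) < π (tube (W * l) p.1 p.2)
    rw [ENNReal.ofReal_mul (by norm_num), ENNReal.ofReal_inv_of_pos (by norm_num)]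
    have h7 : ENNReal.ofReal 2 = 2 := by norm_num
    rw [h7]
    rw [← ENNReal.mul_lt_mul_iff_right (a := 2) (by norm_num) (by norm_num), ← mul_assoc,
      ENNReal.mul_inv_cancel (by norm_num) (by norm_num), one_mul]
    exact h6
  refine (hprod _).trans ((mul_le_mul_right hfin 4).trans_eq ?_)
  have h8 : ENNReal.ofReal (4 * (C₀ * W2 ^ c) * ((2 : ℝ) ^ (-(c * ε))) ^ k) =
      ENNReal.ofReal 4 * ENNReal.ofReal (C₀ * W2 ^ c * ((2 : ℝ) ^ (-(c * ε))) ^ k) := by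
    rw [← ENNReal.ofReal_mul (by norm_num)]
    congr 1
    ring
  rw [h8]
  norm_num

end Pool.Agent.Y293.FA
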