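import Mathlib
import Pool.Agent.Y293.FA.Pin
import Pool.Agent.Y293.FA.Stm4

/-!
# The theorem for a measure, pins of another measure
-/

namespace Pool.Agent.Y293.FA

open MeasureTheory Set Filter Topology Metric
open scoped ENNReal

noncomputable section

theorem frm_mono {μ : Measure ℂ} [IsProbabilityMeasure μ] {C s v : ℝ} (h : Frm μ C s)
    (hv : v ≤ s) (hv0 : 0 ≤ v) : Frm μ (max C 1) v := by
  intro x r hr
  rcases le_total r 1 with h1 | h1
  · refine (h x r hr).trans (ENNReal.ofReal_le_ofReal ?_)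
    have h2 : r ^ s ≤ r ^ v := Real.rpow_le_rpow_of_exponent_ge hr h1 hv
    have h3 : 0 ≤ r ^ s := Real.rpow_nonneg hr.le _
    calc C * r ^ s ≤ max C 1 * r ^ s := mul_le_mul_of_nonneg_right (le_max_left _ _) h3
      _ ≤ max C 1 * r ^ v := mul_le_mul_of_nonneg_left h2 (le_max_of_le_right zero_le_one)
  · refine prob_le_one.trans ?_
    rw [← ENNReal.ofReal_one]
    refine ENNReal.ofReal_le_ofReal ?_
    have h2 : 1 ≤ r ^ v := Real.one_le_rpow h1 hv0
    calc (1 : ℝ) = 1 * 1 := (one_mul 1).symm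
      _ ≤ max C 1 * r ^ v := mul_le_mul (le_max_right _ _) h2 zero_le_one
          (le_max_of_le_right zero_le_one)

theorem core2 (hbad : S_BAD2) (hpin : S_PIN) : S_CORE2 := by
  classical
  intro A F₀ hA hF₀ ρ μ _ _ hρF hμA C₁ u₁ s t I hC₁ hu1 hu2 hFρ₁ hs1 hs2 hF₁ hcard₁ hI hst
  let C : ℝ := max C₁ 1
  have hC : 0 < C := lt_max_of_lt_right zero_lt_one
  have hCC : C₁ ≤ C := le_max_left _ _
  let u : ℝ := min u₁ s
  have hu : 1 < u := lt_min hu1 hs1
  have hu' : u < 2 := (min_le_left _ _).trans_lt hu2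
  have hF : Frm μ C s := frm_mono hF₁ le_rfl (by linarith)
  have hFμ : Frm μ C u := frm_mono hF₁ (min_le_right _ _) (by linarith)
  have hFρ : Frm ρ C u := frm_mono hFρ₁ (min_le_left _ _) (by linarith)
  have hcard : ∀ k, ((I k).card : ℝ) ≤ C * 2 ^ (t * k) := fun k =>
    (hcard₁ k).trans (mul_le_mul_of_nonneg_right hCC (Real.rpow_nonneg two_pos.le _))
  -- the parameters
  let Δ : ℝ := 3 * s - 1 - 2 * t
  have hΔ : 0 < Δ := by simp only [Δ]; linarith
  let θ : ℝ := min (Δ / 16) (min ((s - 1) / 2) (1 / 4))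
  have hθ0 : 0 < θ := lt_min (by linarith) (lt_min (by linarith) (by norm_num))
  have hθ1 : θ ≤ Δ / 16 := min_le_left _ _
  have hθ2 : θ ≤ (s - 1) / 2 := (min_le_right _ _).trans (min_le_left _ _)
  have hθ3 : θ ≤ 1 / 4 := (min_le_right _ _).trans (min_le_right _ _)
  have hΔ' : Δ = 3 * s - 1 - 2 * t := rfl
  have hpar1 : t + Δ / 8 - s + θ / 2 + 2 * (θ / 4) < (1 / 2 - θ) * (s - θ - 1) := by
    nlinarith
  have hpar2 : 2 * (1 / 2 - θ) + θ / 2 + 2 * (θ / 4) < 1 := by linarith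
  -- the radius
  obtain ⟨r₀, hr₀⟩ := (hA.union hF₀).isBounded.subset_closedBall (0 : ℂ)
  let R : ℝ := max 1 (r₀ + 2)
  have hR1 : 1 ≤ R := le_max_left _ _
  have hR2 : r₀ + 2 ≤ R := le_max_right _ _
  have hAae : ∀ᵐ y ∂μ, y ∈ A := by
    rw [ae_iff]
    exact hμA
  have hR : ∀ᵐ x ∂μ, ‖x‖ + 2 ≤ R := by
    filter_upwards [hAae] with x hx
    have := mem_closedBall_zero_iff.1 (hr₀ (Or.inl hx))
    linarith
  have hFae : ∀ᵐ y ∂ρ, y ∈ F₀ := by
    rw [ae_iff]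
    exact hρF
  have hRρ : ∀ᵐ x ∂ρ, ‖x‖ + 2 ≤ R := by
    filter_upwards [hFae] with x hx
    have := mem_closedBall_zero_iff.1 (hr₀ (Or.inr hx))
    linarith
  -- the radius of the excluded ball
  obtain ⟨κ, hκ, hκ2⟩ : ∃ κ : ℝ, 0 < κ ∧ C * (2 * κ) ^ s ≤ 1 / 4 := by
    have h1 : Tendsto (fun κ : ℝ => C * (2 * κ) ^ s) (𝓝[>] 0) (𝓝 (C * (2 * 0) ^ s)) := by
      refine Tendsto.mono_left ?_ nhdsWithin_le_nhds
      have h2 : ContinuousAt (fun κ : ℝ => C * (2 * κ) ^ s) 0 := by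
        refine ContinuousAt.mul continuousAt_const ?_
        exact ContinuousAt.rpow_const (by fun_prop) (Or.inr (by linarith))
      exact h2
    rw [mul_zero, Real.zero_rpow (by linarith), mul_zero] at h1
    have h2 := (h1.eventually (eventually_lt_nhds (by norm_num : (0 : ℝ) < 1 / 4))).and
      self_mem_nhdsWithin
    obtain ⟨κ, h3, h4⟩ := h2.exists
    exact ⟨κ, h4, h3.le⟩
  obtain ⟨C', r, hC', hr0, hr1, k₀, hk₀⟩ := hbad ρ μ R C u s (s - θ) t (t + Δ / 8) (θ / 2)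
    (1 / 2 - θ) (θ / 4) κ I hR1 hRρ hR hC hu hu' hFρ hFμ (by linarith) (by linarith) hs2 hF hcard
    (fun k => measure_mono_null (fun y hy hyA => hy (hI k y hyA)) hμA) (by linarith)
    (by linarith) (by linarith) (by linarith) hκ hpar1 hpar2
  obtain ⟨k₁, hk₁, hk₁2⟩ : ∃ k₁, k₀ ≤ k₁ ∧ C' * r ^ k₁ / (1 - r) ≤ 1 / 4 := by
    have h1 : Tendsto (fun k : ℕ => C' * r ^ k / (1 - r)) atTop (𝓝 (C' * 0 / (1 - r))) :=
      ((tendsto_pow_atTop_nhds_zero_of_lt_one hr0.le hr1).const_mul C').div_const _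
    rw [mul_zero, zero_div] at h1
    have h2 := (h1.eventually (eventually_lt_nhds (by norm_num : (0 : ℝ) < 1 / 4))).and
      (eventually_ge_atTop k₀)
    obtain ⟨k₁, h3, h4⟩ := h2.exists
    exact ⟨k₁, h4, h3.le⟩
  let P : ℂ → ℕ → ℤ × ℤ → Prop := fun x k q =>
    Okq2 ρ μ I R κ (t + Δ / 8) (θ / 2) (1 / 2 - θ) (θ / 4) k x q
  let S : ℕ → Set (ℂ × ℂ) := fun k =>
    {p | 2 * κ ≤ ‖p.2 - p.1‖ ∧ ¬ P p.1 k (qi k p.2)}
  let T : ℕ → Set (ℂ × ℂ) := fun k => toMeasurable (ρ.prod μ) (S k)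
  have hT : ∀ k, MeasurableSet (T k) := fun k => measurableSet_toMeasurable _ _
  have hTS : ∀ k, k₀ ≤ k → (ρ.prod μ) (T k) ≤ ENNReal.ofReal (C' * r ^ k) := by
    intro k hk
    simp only [T]
    rw [measure_toMeasurable]
    exact hk₀ k hk
  let F : ℂ → ℝ≥0∞ := fun x => ∑' j : ℕ, μ (Prod.mk x ⁻¹' T (k₁ + j))
  have hFint : ∫⁻ x, F x ∂ρ ≤ ENNReal.ofReal (1 / 4) := by
    simp only [F]
    rw [lintegral_tsum fun j => (measurable_measure_prodMk_left (hT _)).aemeasurable]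
    have h1 : ∀ j, ∫⁻ x, μ (Prod.mk x ⁻¹' T (k₁ + j)) ∂ρ ≤
        ENNReal.ofReal (C' * r ^ k₁ * r ^ j) := by
      intro j
      rw [← Measure.prod_apply (hT _), mul_assoc, ← pow_add]
      exact hTS _ (by omega)
    refine (ENNReal.tsum_le_tsum h1).trans ?_
    have h2 : Summable fun j : ℕ => C' * r ^ k₁ * r ^ j :=
      (summable_geometric_of_lt_one hr0.le hr1).mul_left _
    rw [← ENNReal.ofReal_tsum_of_nonneg (fun j => by positivity) h2]
    refine ENNReal.ofReal_le_ofReal ?_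
    rw [tsum_mul_left, tsum_geometric_of_lt_one hr0.le hr1, ← div_eq_mul_inv]
    exact hk₁2
  obtain ⟨x, hxA, hxF⟩ : ∃ x ∈ F₀, F x < ENNReal.ofReal (1 / 2) := by
    by_contra hcon
    have h1 : ∀ᵐ x ∂ρ, ENNReal.ofReal (1 / 2) ≤ F x := by
      filter_upwards [hFae] with x hx
      by_contra h2
      exact hcon ⟨x, hx, not_le.1 h2⟩
    have h2 := lintegral_mono_ae h1
    rw [lintegral_const, measure_univ, mul_one] at h2
    have h3 := h2.trans hFint
    rw [ENNReal.ofReal_le_ofReal_iff (by norm_num)] at h3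
    norm_num at h3
  refine ⟨x, hxA, ?_⟩
  refine hpin A hA μ hμA x (1 / 2 - θ) (θ / 4) (by linarith) (by linarith) (by linarith) (P x) k₁
    (1 / 4) ?_ ?_ ?_ (by norm_num) ?_
  · intro k
    exact (I k).finite_toSet.subset fun q hq => hq.1
  · intro k q hq
    have h1 : ENNReal.ofReal ((2 : ℝ) ^ (-((t + Δ / 8) * k))) ≤ μ (ce k q) := hq.2.1
    have h2 : 0 < ENNReal.ofReal ((2 : ℝ) ^ (-((t + Δ / 8) * k))) :=
      ENNReal.ofReal_pos.2 (Real.rpow_pos_of_pos two_pos _)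
    exact (h2.trans_le h1).ne'
  · intro k q hq
    exact hq.2.2.2.2
  · intro n
    have hG : MeasurableSet (GG (P x) k₁ n) := measurableSet_GG _ _ _
    have h1 : (GG (P x) k₁ n)ᶜ ⊆ closedBall x (2 * κ) ∪ ⋃ j : ℕ, Prod.mk x ⁻¹' T (k₁ + j) := by
      intro y hy
      by_contra h2
      rw [mem_union, not_or, mem_iUnion, not_exists] at h2
      refine hy ?_
      intro k h3 _
      by_contra h4
      obtain ⟨j, rfl⟩ := Nat.exists_eq_add_of_le h3
      refine h2.2 j (subset_toMeasurable _ _ ⟨?_, h4⟩)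
      have h5 := h2.1
      rw [mem_closedBall, not_le, dist_eq_norm] at h5
      exact h5.le
    have h2 : μ (GG (P x) k₁ n)ᶜ ≤ ENNReal.ofReal (3 / 4) := by
      refine (measure_mono h1).trans ((measure_union_le _ _).trans ?_)
      have h3 : μ (closedBall x (2 * κ)) ≤ ENNReal.ofReal (1 / 4) :=
        (hF x (2 * κ) (by linarith)).trans (ENNReal.ofReal_le_ofReal hκ2)
      have h4 : μ (⋃ j : ℕ, Prod.mk x ⁻¹' T (k₁ + j)) ≤ ENNReal.ofReal (1 / 2) :=
        (measure_iUnion_le _).trans hxF.le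
      refine (add_le_add h3 h4).trans ?_
      rw [← ENNReal.ofReal_add (by norm_num) (by norm_num)]
      exact ENNReal.ofReal_le_ofReal (by norm_num)
    have h3 : μ.real (GG (P x) k₁ n)ᶜ ≤ 3 / 4 := by
      rw [Measure.real]
      exact ENNReal.toReal_le_of_le_ofReal (by norm_num) h2
    have h4 := probReal_add_probReal_compl (μ := μ) hG
    have h5 : μ.real {y | ∀ k, k₁ ≤ k → k ≤ n → P x k (qi k y)} = μ.real (GG (P x) k₁ n) := rfl
    rw [h5]
    linarith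

end

end Pool.Agent.Y293.FA
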