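import Mathlib
import Pool.Agent.Y971.FA.Cube
import Pool.Agent.Y293.FA.Stm4

/-!
# The estimate for one small set, pins of another measure (after helper971)
-/

namespace Pool.Agent.Y293.FA

open MeasureTheory Set Filter Topology Pool.Agent.Y971.FA
open scoped ENNReal ComplexConjugate

/-- The estimate for one small set. -/
theorem cube2 : S_PERT → S_SCALE → S_AVGC → S_LIN → S_CUBE2 := by
  intro hP hS hA hL R κ hR hκ
  refine ⟨9 + 144 * Real.pi + 192 / κ, by positivity, ?_⟩
  intro ρ μ _ _ hμR Q hQ hQ0 y l hy hl hl1 hQl a b V L ha hab hV hL1 hθ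
  have hcm := Pool.Agent.Y971.FA.cm_prob μ hQ0
  obtain ⟨ν, hν⟩ : ∃ ν, ν = rs y l (cm μ Q) := ⟨_, rfl⟩
  have hνp : IsProbabilityMeasure ν := hν ▸ rs_prob (cm μ Q) y l
  have hν2 : ∀ᵐ z ∂ν, ‖z‖ ≤ 2 := hν ▸ rs_ae hQ hl hQl
  obtain ⟨S, hSd⟩ : ∃ S, S = {x | κ ≤ ‖y - x‖ ∧ ρ (tube (4 * R * l) x y) ≤
    ENNReal.ofReal (L * l)} := ⟨_, rfl⟩
  have hSm : MeasurableSet S := by
    rw [hSd]
    have h1 : Measurable fun x : ℂ => ‖y - x‖ := by fun_prop
    exact (measurableSet_le measurable_const h1).inter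
      (measurableSet_le (measurable_tube ρ _ y) measurable_const)
  have hne : ∀ x ∈ S, x ≠ y := by
    intro x hx hxy
    rw [hSd] at hx
    have := hx.1
    rw [hxy, sub_self, norm_zero] at this
    linarith
  rw [← hSd]
  rw [← hν] at hθ
  have hlc : (l : ℂ) ≠ 0 := by exact_mod_cast hl.ne'
  have hnl : ‖(l : ℂ)‖ = l := by rw [Complex.norm_real, Real.norm_of_nonneg hl.le]
  -- the estimate for one pin
  have key : ∀ x ∈ S, dd a b ((cm μ Q).map (dist x)) ≤
      3 * l⁻¹ * dd (a / l) (b / l) (ν.map (pe (ee y x))) + 192 * l ^ 2 / (κ * a ^ 2) := by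
    intro x hx
    have hκx : κ ≤ ‖y - x‖ := by rw [hSd] at hx; exact hx.1
    have h1 := Pool.Agent.Y804.FA.one_cyl hP hS hL (R := 2) (κ := 2 * κ) (by norm_num)
      (by linarith) hν2 hlc (ui := y - x) (by linarith) ha hab
    rw [hnl] at h1
    have h2 : (starRingEnd ℂ) (l : ℂ) / (l : ℂ) * ((y - x) / (‖y - x‖ : ℂ)) = ee y x := by
      rw [Complex.conj_ofReal, div_self hlc, one_mul, ee, if_neg (hne x hx)]
    rw [h2] at h1
    rw [map_dist (cm μ Q) x y hl, ← hν]
    refine h1.trans (le_of_eq ?_)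
    field_simp
    ring
  -- the average
  have havg := hA ν 2 (by norm_num) hν2 (ρ.restrict S) (ee y) (measurable_ee y) (norm_ee y) S
    (by rw [Measure.restrict_apply hSm.compl, compl_inter_self, measure_empty])
    l L (a / l) (b / l) V hl hl1 (by linarith) (by positivity)
    (div_le_div_of_nonneg_right hab hl.le) hV (by
      intro x hx
      have h1 : (ρ.restrict S) {x' | ‖ee y x' - ee y x‖ ≤ 2 * l} ≤
          (ρ.restrict S) (tube (4 * R * l) x y) := by
        refine measure_mono_ae ?_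
        filter_upwards [ae_restrict_mem hSm, ae_restrict_of_ae hμR] with x' h3 h4 h5
        refine mem_tube_of hl (hne x hx) (hne x' h3) ?_ h5
        exact (norm_sub_le _ _).trans (by linarith)
      refine h1.trans ((Measure.restrict_le_self _).trans ?_)
      rw [hSd] at hx
      exact hx.2) hθ
  calc ∫⁻ x in S, ENNReal.ofReal (dd a b ((cm μ Q).map (dist x))) ∂ρ ≤
      ∫⁻ x in S, (ENNReal.ofReal (3 * l⁻¹) * ENNReal.ofReal (dd (a / l) (b / l)
        (ν.map (pe (ee y x)))) + ENNReal.ofReal (192 * l ^ 2 / (κ * a ^ 2))) ∂ρ := by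
        refine setLIntegral_mono' hSm fun x hx => ?_
        rw [← ENNReal.ofReal_mul (by positivity), ← ENNReal.ofReal_add
          (mul_nonneg (by positivity) (dd_nonneg _ _ _)) (by positivity)]
        exact ENNReal.ofReal_le_ofReal (key x hx)
    _ = ENNReal.ofReal (3 * l⁻¹) * ∫⁻ x in S, ENNReal.ofReal (dd (a / l) (b / l)
        (ν.map (pe (ee y x)))) ∂ρ + ENNReal.ofReal (192 * l ^ 2 / (κ * a ^ 2)) * ρ S := by
        rw [lintegral_add_right _ measurable_const, lintegral_const_mul' _ _ ENNReal.ofReal_ne_top,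
          setLIntegral_const]
    _ ≤ ENNReal.ofReal (3 * l⁻¹) * ENNReal.ofReal (L * (3 * V + 24 * Real.pi * 2 * l /
        (a / l) ^ 2)) + ENNReal.ofReal (192 * l ^ 2 / (κ * a ^ 2)) * 1 :=
        add_le_add (mul_le_mul' le_rfl havg) (mul_le_mul' le_rfl prob_le_one)
    _ = ENNReal.ofReal (3 * l⁻¹ * (L * (3 * V + 24 * Real.pi * 2 * l /
        (a / l) ^ 2)) + 192 * l ^ 2 / (κ * a ^ 2)) := by
        rw [mul_one, ← ENNReal.ofReal_mul (by positivity), ← ENNReal.ofReal_add (by positivity)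
          (by positivity)]
    _ ≤ _ := by
        refine ENNReal.ofReal_le_ofReal ?_
        have e1 : 3 * l⁻¹ * (L * (3 * V + 24 * Real.pi * 2 * l / (a / l) ^ 2)) =
            9 * (L * (V / l)) + 144 * Real.pi * (L * (l ^ 2 / a ^ 2)) := by
          field_simp
          ring
        have e2 : 192 * l ^ 2 / (κ * a ^ 2) = 192 / κ * (l ^ 2 / a ^ 2) := by
          field_simp
        rw [e1, e2]
        have p1 : 0 ≤ L * (V / l) := by positivity
        have p2 : 0 ≤ L * (l ^ 2 / a ^ 2) := by positivity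
        have p3 : 192 / κ * (l ^ 2 / a ^ 2) ≤ 192 / κ * (L * (l ^ 2 / a ^ 2)) := by
          refine mul_le_mul_of_nonneg_left ?_ (by positivity)
          exact le_mul_of_one_le_left (by positivity) hL1
        have p4 : 0 ≤ 144 * Real.pi * (L * (V / l)) := by positivity
        have p5 : 0 ≤ 192 / κ * (L * (V / l)) := by positivity
        have e3 : (9 + 144 * Real.pi + 192 / κ) * L * (V / l + l ^ 2 / a ^ 2) =
            9 * (L * (V / l)) + 9 * (L * (l ^ 2 / a ^ 2)) + 144 * Real.pi * (L * (V / l)) +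
            144 * Real.pi * (L * (l ^ 2 / a ^ 2)) + 192 / κ * (L * (V / l)) +
            192 / κ * (L * (l ^ 2 / a ^ 2)) := by ring
        rw [e3]
        linarith

end Pool.Agent.Y293.FA
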