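import Mathlib
import Pool.Agent.Y319.FA.Main2
import Pool.Agent.Y293.FA.Stm4

/-!
# From measures to Hausdorff and packing dimension (after helper319)
-/

namespace Pool.Agent.Y293.FA

open MeasureTheory Set Filter Topology Metric Pool.Agent.Y319.FA
open scoped ENNReal

noncomputable section

/-- The theorem in the complex plane. -/
theorem core_C3 (hF : S_FRO) (hCo : S_CORE2) {A P : Set ℂ} (hA : IsCompact A) (hP : IsCompact P)
    {t : ℝ} (hB : Bx A t) (hd : ENNReal.ofReal (2 * t + 1) < 3 * dimH A) (hPd : 1 < dimH P) :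
    ∃ x ∈ P, 0 < volume {r : ℝ | ∃ y ∈ A, r = dist x y} := by
  have h2 : dimH A ≤ 2 := by
    refine (dimH_mono (subset_univ A)).trans ?_
    rw [Real.dimH_univ_eq_finrank, Complex.finrank_real_complex]
    norm_num
  have htop : dimH A ≠ ⊤ := (h2.trans_lt (by norm_num)).ne
  set d : ℝ := (dimH A).toReal with hdd
  have hdA : dimH A = ENNReal.ofReal d := (ENNReal.ofReal_toReal htop).symm
  have hd2 : d ≤ 2 := by
    have := ENNReal.toReal_mono (by norm_num) h2
    simpa using this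
  have h3 : (3 : ℝ≥0∞) * dimH A = ENNReal.ofReal (3 * d) := by
    rw [hdA, ENNReal.ofReal_mul (by norm_num)]
    norm_num
  rw [h3, ENNReal.ofReal_lt_ofReal_iff'] at hd
  obtain ⟨hd1, hd0⟩ := hd
  have hdp : 0 < d := by linarith
  have hdt : d ≤ t := by
    refine le_of_forall_lt_imp_le_of_dense fun s hs => ?_
    by_cases hs0 : 0 ≤ s
    · refine dim_le hF hA hB hs0 ?_
      rw [hdA]
      exact (ENNReal.ofReal_lt_ofReal_iff hdp).2 hs
    · push Not at hs0
      have h4 : (0 : ℝ) ≤ t := by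
        refine dim_le hF hA hB le_rfl ?_
        rw [hdA]
        exact (ENNReal.ofReal_lt_ofReal_iff hdp).2 hdp
      linarith
  have ht1 : 1 < t := by linarith
  set s : ℝ := ((2 * t + 1) / 3 + d) / 2 with hs
  have hs1 : 2 * t + 1 < 3 * s := by rw [hs]; linarith
  have hsd : s < d := by rw [hs]; linarith
  obtain ⟨μ, hμ, hμA, D, hD, hFr⟩ := hF A hA s (by linarith) (by
    rw [hdA]
    exact (ENNReal.ofReal_lt_ofReal_iff hdp).2 hsd)
  set η : ℝ := (3 * s - 2 * t - 1) / 4 with hη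
  have hη0 : 0 < η := by rw [hη]; linarith
  obtain ⟨C, hC⟩ := hB η hη0
  obtain ⟨I, hI, hIA⟩ := cells hC
  have h2P : dimH P ≤ 2 := by
    refine (dimH_mono (subset_univ P)).trans ?_
    rw [Real.dimH_univ_eq_finrank, Complex.finrank_real_complex]
    norm_num
  obtain ⟨v, hv1, hv2⟩ := ENNReal.lt_iff_exists_nnreal_btwn.1 hPd
  have hv1' : (1 : ℝ) < v := by exact_mod_cast hv1
  have hv2' : (v : ℝ) < 2 := by
    have h5 : (v : ℝ≥0∞) < 2 := hv2.trans_le h2P
    exact_mod_cast h5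
  obtain ⟨ρ, hρ, hρP, D', hD', hFr'⟩ := hF P hP v (by linarith) (by
    rw [ENNReal.ofReal_coe_nnreal]
    exact hv2)
  refine hCo A P hA hP ρ μ hρP hμA (max (9 * C) (max D D')) v s (t + η) I
    (lt_max_of_lt_right (lt_max_of_lt_left hD)) hv1' hv2' ?_ (by linarith)
    (by linarith) ?_ ?_ hIA ?_
  · intro x r hr
    refine (hFr' x r hr).trans (ENNReal.ofReal_le_ofReal ?_)
    exact mul_le_mul_of_nonneg_right ((le_max_right _ _).trans (le_max_right _ _)) (by positivity)
  · intro x r hr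
    refine (hFr x r hr).trans (ENNReal.ofReal_le_ofReal ?_)
    exact mul_le_mul_of_nonneg_right ((le_max_left _ _).trans (le_max_right _ _)) (by positivity)
  · intro k
    refine (hI k).trans ?_
    exact mul_le_mul_of_nonneg_right (le_max_left _ _) (by positivity)
  · rw [hη]
    linarith

/-- The theorem for sets of small box dimension. -/
theorem core_E3 (hF : S_FRO) (hCo : S_CORE2) {A P : Set (EuclideanSpace ℝ (Fin 2))}
    (hA : IsCompact A) (hP : IsCompact P) {t : ℝ} (hB : BoxLE A t)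
    (hd : ENNReal.ofReal (2 * t + 1) < 3 * dimH A) (hPd : 1 < dimH P) :
    ∃ x ∈ P, 0 < volume {r : ℝ | ∃ y ∈ A, r = dist x y} := by
  classical
  let φ : EuclideanSpace ℝ (Fin 2) ≃ₗᵢ[ℝ] ℂ := Complex.orthonormalBasisOneI.repr.symm
  have hB' : Bx (φ '' A) t := by
    intro η hη
    obtain ⟨C, hC⟩ := hB η hη
    refine ⟨C, fun j => ?_⟩
    obtain ⟨T, hT, hAT⟩ := hC j
    refine ⟨T.image φ, ?_, ?_⟩
    · refine le_trans ?_ hT
      exact_mod_cast Finset.card_image_le
    · rintro _ ⟨a, ha, rfl⟩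
      have h1 := hAT ha
      rw [mem_iUnion₂] at h1
      obtain ⟨z, hz, h2⟩ := h1
      rw [mem_iUnion₂]
      refine ⟨φ z, Finset.mem_image_of_mem _ hz, ?_⟩
      rw [mem_closedBall, φ.dist_map]
      exact h2
  obtain ⟨x, ⟨x0, hx0, rfl⟩, hx⟩ := core_C3 hF hCo (hA.image φ.continuous)
    (hP.image φ.continuous) hB' (by
    rw [φ.isometry.dimH_image]
    exact hd) (by
    rw [φ.isometry.dimH_image]
    exact hPd)
  refine ⟨x0, hx0, ?_⟩
  have h3 : {r : ℝ | ∃ y ∈ φ '' A, r = dist (φ x0) y} = {r : ℝ | ∃ y ∈ A, r = dist x0 y} := by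
    ext r
    constructor
    · rintro ⟨_, ⟨y, hy, rfl⟩, hr⟩
      exact ⟨y, hy, by rw [hr, φ.dist_map]⟩
    · rintro ⟨y, hy, hr⟩
      exact ⟨φ y, ⟨y, hy, rfl⟩, by rw [hr, φ.dist_map]⟩
  rwa [h3] at hx

theorem main3 : S_FRO → S_CORE2 → S_MAIN3 := by
  intro hF hCo A F t hA hFc hP hd hFd
  obtain ⟨B, hAB, hB⟩ := hP
  have hU : A = ⋃ i, A ∩ closure (B i) := by
    rw [← inter_iUnion]
    refine (inter_eq_left.2 (hAB.trans ?_)).symm
    exact iUnion_mono fun i => subset_closure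
  rw [hU, dimH_iUnion, ENNReal.mul_iSup, lt_iSup_iff] at hd
  obtain ⟨i, hi⟩ := hd
  have hAi : IsCompact (A ∩ closure (B i)) := hA.inter_right isClosed_closure
  have hBi : BoxLE (A ∩ closure (B i)) t := by
    intro η hη
    obtain ⟨C, hC⟩ := hB i η hη
    refine ⟨C, fun j => ?_⟩
    obtain ⟨T, hT, hAT⟩ := hC j
    refine ⟨T, hT, inter_subset_right.trans (closure_minimal hAT ?_)⟩
    exact T.finite_toSet.isClosed_biUnion fun z _ => isClosed_closedBall
  obtain ⟨x, hx, hv⟩ := core_E3 hF hCo hAi hFc hBi hi hFd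
  refine ⟨x, hx, hv.trans_le (measure_mono ?_)⟩
  rintro r ⟨y, hy, hr⟩
  exact ⟨y, hy.1, hr⟩

end

end Pool.Agent.Y293.FA
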