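import Mathlib
import Pool.Agent.Y293.FA.Stm

/-!
# Distance sets of planar self-similar sets: further statements
-/

namespace Pool.Agent.Y293.FA

open MeasureTheory Set Filter Topology
open scoped ENNReal

noncomputable section

/-- An integrable function which controls the concentration of the projections of the law of the
difference. -/
def S_DIR1 : Prop := ∀ (μ : Measure ℂ) [IsProbabilityMeasure μ] (s : ℝ), 1 < s → s ≤ 2 →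
  en s μ < ⊤ → ∃ H : ℝ → ℝ≥0∞, Measurable H ∧ (∀ θ, H (θ + 2 * Real.pi) = H θ) ∧
    ∫⁻ θ in Ioc 0 (2 * Real.pi), H θ < ⊤ ∧
    ∀ θ r : ℝ, 0 < r → dif μ {w : ℂ | |pr θ w| ≤ r} ≤ ENNReal.ofReal r * H θ

/-- The energy estimate for the laws of the norm on the cylinders which meet the set of good
points. -/
def S_EST : Prop := ∀ R κ K : ℝ, 0 < R → 0 < κ → 0 < K → ∃ C : ℝ, 0 < C ∧
  ∀ (ν : Measure ℂ) [IsProbabilityMeasure ν], (∀ᵐ z ∂ν, ‖z‖ ≤ R) →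
  ∀ (ι : Type) [Fintype ι] [Nonempty ι] (u : ι → ℂ) (γ : ℂ), γ ≠ 0 → ‖γ‖ ≤ 1 →
  2 * R * ‖γ‖ ≤ κ → ν = (Fintype.card ι : ℝ≥0∞)⁻¹ • ∑ i, ν.map (fun z => u i + γ * z) →
  ∀ A : Set ℂ, (∀ z ∈ A, κ ≤ ‖z‖) → (∀ z ∈ A, ∀ r : ℝ, 0 < r →
    ν {w : ℂ | |(w * (starRingEnd ℂ) z).im| ≤ r * ‖z‖} ≤ ENNReal.ofReal (K * r)) →
  ∀ a b Q : ℝ, 0 < a → a ≤ b → 0 ≤ Q →
  ∫⁻ θ in Ioc 0 (2 * Real.pi),
    ENNReal.ofReal (dd (a / ‖γ‖) (b / ‖γ‖) (ν.map (pr θ))) ≤ ENNReal.ofReal Q →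
  ∑ i, (open Classical in if ∃ z ∈ A, ‖z - u i‖ ≤ R * ‖γ‖ then
    dd a b (ν.map fun z => ‖u i + γ * z‖) else 0) ≤
      Fintype.card ι * (C * (Q / ‖γ‖ + ‖γ‖ ^ 2 / a ^ 2))

end

end Pool.Agent.Y293.FA
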