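import Mathlib
import Pool.Agent.Y370.FA.Pert
import Pool.Agent.Y297.FA.Pos
import Pool.Agent.Y297.FA.Scl
import Pool.Agent.Y891.FA.Adj
import Pool.Agent.Y891.FA.Form
import Pool.Agent.Y891.FA.Ker
import Pool.Agent.Y587.FA.Energy
import Pool.Agent.Y758.FA.AvgC
import Pool.Agent.Y87.FA.Cuben
import Pool.Agent.Y210.FA.Rad
import Pool.Agent.Y210.FA.Meas
import Pool.Agent.Y293.FA.Cube2
import Pool.Agent.Y293.FA.Bt2
import Pool.Agent.Y293.FA.Bd2
import Pool.Agent.Y293.FA.Bad2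
import Pool.Agent.Y293.FA.Core2
import Pool.Agent.Y293.FA.Main3

/-!
# Pinned distance sets of regular planar sets: assembly
-/

namespace Pool.Agent.Y293.FA

theorem main3_proof : S_MAIN3 := by
  have hen := Pool.Agent.Y587.FA.energy Pool.Agent.Y891.FA.form Pool.Agent.Y891.FA.Ker.ker
  have hcube := cube2 Pool.Agent.Y370.FA.pert Pool.Agent.Y297.FA.scale
    (Pool.Agent.Y758.FA.avgc Pool.Agent.Y370.FA.pert) Pool.Agent.Y297.FA.lin
  have hbd := bd2 hen Pool.Agent.Y87.FA.cuben Pool.Agent.Y210.FA.meas hcube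
  have hbad := bad2 (bt2 Pool.Agent.Y210.FA.rad) hbd
  have hpin := pin Pool.Agent.Y891.FA.Adj.adj Pool.Agent.Y297.FA.pos
  exact main3 Pool.Agent.Y210.FA.fro (core2 hbad hpin)

end Pool.Agent.Y293.FA
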