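import Mathlib
import Pool.Agent.Y490.FA.Bad
import Pool.Agent.Y293.FA.Stm4

/-!
# The pairs in bad squares (after helper490)
-/

namespace Pool.Agent.Y293.FA

open MeasureTheory Set Filter Topology Metric
open scoped ENNReal

noncomputable section

theorem bad2 : S_BT2 → S_BD2 → S_BAD2 := by
  intro hBT hBD ρ μ _ _ R C u s s' t t' ε α γ κ I hR hsuppρ hsupp hC hu1 hu2 hFρ hFμ hs' hs's hs2
    hF hI hI0 htt hε hγ hα hκ hc1 hc2
  obtain ⟨C1, r1, hC1, hr1, hr1', k1, h1⟩ := hBT ρ μ R C u ε κ hR hsuppρ hsupp hC hu1 hu2 hFρ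
    hFμ hε hκ
  obtain ⟨C2, hC2, h2⟩ := hBD ρ μ R C s s' t' ε α γ κ hR hsuppρ hsupp hC hs' hs's hs2 hF hε hγ hα hκ hc1
    hc2
  obtain ⟨k2, hk2⟩ : ∃ k2 : ℕ, (2⁻¹ : ℝ) ^ k2 < κ / 2 :=
    exists_pow_lt_of_lt_one (by positivity) (by norm_num)
  set r3 : ℝ := (2 : ℝ) ^ (t - t') with hr3
  set r4 : ℝ := (2 : ℝ) ^ (-γ) with hr4
  have hr3p : 0 < r3 := Real.rpow_pos_of_pos (by norm_num) _
  have hr4p : 0 < r4 := Real.rpow_pos_of_pos (by norm_num) _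
  have hr3l : r3 < 1 := Real.rpow_lt_one_of_one_lt_of_neg (by norm_num) (by linarith)
  have hr4l : r4 < 1 := Real.rpow_lt_one_of_one_lt_of_neg (by norm_num) (by linarith)
  refine ⟨C + C1 + C2, max r1 (max r3 r4), by positivity, lt_max_of_lt_left hr1,
    max_lt hr1' (max_lt hr3l hr4l), max k1 k2, fun k hk => ?_⟩
  have hkk1 : k1 ≤ k := (le_max_left _ _).trans hk
  have hkk2 : k2 ≤ k := (le_max_right _ _).trans hk
  set r : ℝ := max r1 (max r3 r4) with hr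
  have hrp : 0 < r := lt_max_of_lt_left hr1
  have hr1k : r1 ^ k ≤ r ^ k := pow_le_pow_left₀ hr1.le (le_max_left _ _) k
  have hr3k : r3 ^ k ≤ r ^ k :=
    pow_le_pow_left₀ hr3p.le ((le_max_left _ _).trans (le_max_right _ _)) k
  have hr4k : r4 ^ k ≤ r ^ k :=
    pow_le_pow_left₀ hr4p.le ((le_max_right _ _).trans (le_max_right _ _)) k
  have hsmall : 2 * (2⁻¹ : ℝ) ^ k ≤ κ := by
    have h3 : (2⁻¹ : ℝ) ^ k ≤ (2⁻¹ : ℝ) ^ k2 :=
      pow_le_pow_of_le_one (by norm_num) (by norm_num) hkk2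
    linarith
  -- the sets
  set X : ℤ × ℤ → Set ℂ := fun q => {x | κ ≤ ‖yc k q - x‖ ∧
      ρ (tube (4 * R * (2⁻¹ : ℝ) ^ k) x (yc k q)) ≤
        ENNReal.ofReal ((2 : ℝ) ^ (ε * k) * (2⁻¹ : ℝ) ^ k) ∧
      (2 : ℝ) ^ k * (2 : ℝ) ^ (-(γ * k)) <
        dd (ds α (k + 1)) (ds α k) ((cm μ (ce k q)).map (dist x))} with hX
  set J2 : Finset (ℤ × ℤ) := (I k).filter fun q =>
    ¬ ENNReal.ofReal ((2 : ℝ) ^ (-(t' * k))) ≤ μ (ce k q) with hJ2
  set J5 : Finset (ℤ × ℤ) := (I k).filter fun q =>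
    ENNReal.ofReal ((2 : ℝ) ^ (-(t' * k))) ≤ μ (ce k q) with hJ5
  set E1 : Set (ℂ × ℂ) := univ ×ˢ {y | qi k y ∉ I k} with hE1
  set E2 : Set (ℂ × ℂ) := ⋃ q ∈ J2, univ ×ˢ ce k q with hE2
  set E4 : Set (ℂ × ℂ) := {p | 2 * κ ≤ ‖p.2 - p.1‖ ∧
      ENNReal.ofReal ((2 : ℝ) ^ (ε * k) * (2⁻¹ : ℝ) ^ k) <
      ρ (tube (4 * R * (2⁻¹ : ℝ) ^ k) p.1 (yc k (qi k p.2)))} with hE4
  set E5 : Set (ℂ × ℂ) := ⋃ q ∈ J5, X q ×ˢ ce k q with hE5
  have hsub : {p : ℂ × ℂ | 2 * κ ≤ ‖p.2 - p.1‖ ∧ ¬ Okq2 ρ μ I R κ t' ε α γ k p.1 (qi k p.2)} ⊆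
      ((E1 ∪ E2) ∪ E4) ∪ E5 := by
    rintro ⟨x, z⟩ ⟨hp1, hp2⟩
    simp only at hp1 hp2
    by_contra hcon
    rw [mem_union, mem_union, mem_union] at hcon
    push Not at hcon
    obtain ⟨⟨⟨hc1', hc2'⟩, hc4⟩, hc5⟩ := hcon
    apply hp2
    have m1 : qi k z ∈ I k := by
      by_contra h
      exact hc1' ⟨mem_univ _, h⟩
    have m2 : ENNReal.ofReal ((2 : ℝ) ^ (-(t' * k))) ≤ μ (ce k (qi k z)) := by
      by_contra h
      apply hc2'
      rw [hE2]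
      simp only [mem_iUnion]
      refine ⟨qi k z, ?_, mem_univ _, rfl⟩
      rw [hJ2, Finset.mem_filter]
      exact ⟨m1, h⟩
    have m3 : κ ≤ ‖yc k (qi k z) - x‖ := by
      have h3 := bad_norm_sub k z
      have h4 : ‖z - x‖ ≤ ‖z - yc k (qi k z)‖ + ‖yc k (qi k z) - x‖ := norm_sub_le_norm_sub_add_norm_sub _ _ _
      linarith
    have m4 : ρ (tube (4 * R * (2⁻¹ : ℝ) ^ k) x (yc k (qi k z))) ≤
        ENNReal.ofReal ((2 : ℝ) ^ (ε * k) * (2⁻¹ : ℝ) ^ k) := by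
      by_contra h
      exact hc4 ⟨hp1, not_le.1 h⟩
    refine ⟨m1, m2, m3, m4, ?_⟩
    by_contra h
    apply hc5
    rw [hE5]
    simp only [mem_iUnion]
    refine ⟨qi k z, ?_, ⟨m3, m4, not_le.1 h⟩, rfl⟩
    rw [hJ5, Finset.mem_filter]
    exact ⟨m1, m2⟩
  have hm1 : (ρ.prod μ) E1 = 0 := by
    rw [hE1, Measure.prod_prod, hI0, mul_zero]
  have hm2 : (ρ.prod μ) E2 ≤ ENNReal.ofReal (C * r ^ k) := by
    calc (ρ.prod μ) E2 ≤ ∑ q ∈ J2, (ρ.prod μ) (univ ×ˢ ce k q) :=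
          measure_biUnion_finset_le _ _
      _ ≤ ∑ q ∈ J2, ENNReal.ofReal ((2 : ℝ) ^ (-(t' * k))) := by
          refine Finset.sum_le_sum fun q hq => ?_
          rw [Measure.prod_prod, measure_univ, one_mul]
          rw [hJ2, Finset.mem_filter] at hq
          exact (not_le.1 hq.2).le
      _ = (J2.card : ℝ≥0∞) * ENNReal.ofReal ((2 : ℝ) ^ (-(t' * k))) := by
          rw [Finset.sum_const, nsmul_eq_mul]
      _ ≤ ENNReal.ofReal (C * 2 ^ (t * k)) * ENNReal.ofReal ((2 : ℝ) ^ (-(t' * k))) := by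
          gcongr
          rw [← ENNReal.ofReal_natCast]
          refine ENNReal.ofReal_le_ofReal (le_trans ?_ (hI k))
          exact_mod_cast Finset.card_le_card (Finset.filter_subset _ _)
      _ = ENNReal.ofReal (C * r3 ^ k) := by
          rw [← ENNReal.ofReal_mul (by positivity)]
          congr 1
          rw [mul_assoc, ← Real.rpow_add (by norm_num), hr3, ← bad_rpow]
          congr 2
          ring
      _ ≤ ENNReal.ofReal (C * r ^ k) :=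
          ENNReal.ofReal_le_ofReal (mul_le_mul_of_nonneg_left hr3k hC.le)
  have hm4 : (ρ.prod μ) E4 ≤ ENNReal.ofReal (C1 * r ^ k) :=
    (h1 k hkk1).trans (ENNReal.ofReal_le_ofReal (mul_le_mul_of_nonneg_left hr1k hC1.le))
  have hm5 : (ρ.prod μ) E5 ≤ ENNReal.ofReal (C2 * r ^ k) := by
    calc (ρ.prod μ) E5 ≤ ∑ q ∈ J5, (ρ.prod μ) (X q ×ˢ ce k q) :=
          measure_biUnion_finset_le _ _
      _ ≤ ∑ q ∈ J5, ENNReal.ofReal (C2 * (2 : ℝ) ^ (-(γ * k))) * μ (ce k q) := by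
          refine Finset.sum_le_sum fun q hq => ?_
          rw [Measure.prod_prod]
          rw [hJ5, Finset.mem_filter] at hq
          gcongr
          exact h2 k q hq.2
      _ = ENNReal.ofReal (C2 * (2 : ℝ) ^ (-(γ * k))) * ∑ q ∈ J5, μ (ce k q) := by
          rw [Finset.mul_sum]
      _ ≤ ENNReal.ofReal (C2 * (2 : ℝ) ^ (-(γ * k))) * 1 := by
          gcongr
          exact bad_sum_ce μ k J5
      _ = ENNReal.ofReal (C2 * r4 ^ k) := by
          rw [mul_one, hr4, ← bad_rpow]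
          congr 3
          ring
      _ ≤ ENNReal.ofReal (C2 * r ^ k) :=
          ENNReal.ofReal_le_ofReal (mul_le_mul_of_nonneg_left hr4k hC2.le)
  calc (ρ.prod μ) {p : ℂ × ℂ | 2 * κ ≤ ‖p.2 - p.1‖ ∧
        ¬ Okq2 ρ μ I R κ t' ε α γ k p.1 (qi k p.2)}
      ≤ (ρ.prod μ) (((E1 ∪ E2) ∪ E4) ∪ E5) := measure_mono hsub
    _ ≤ ((ρ.prod μ) E1 + (ρ.prod μ) E2 + (ρ.prod μ) E4) + (ρ.prod μ) E5 := by
        refine (measure_union_le _ _).trans (add_le_add_left ?_ _)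
        refine (measure_union_le _ _).trans (add_le_add_left ?_ _)
        exact measure_union_le _ _
    _ ≤ (0 + ENNReal.ofReal (C * r ^ k) + ENNReal.ofReal (C1 * r ^ k)) +
        ENNReal.ofReal (C2 * r ^ k) := by
        rw [hm1]
        gcongr
    _ = ENNReal.ofReal ((C + C1 + C2) * r ^ k) := by
        rw [zero_add, ← ENNReal.ofReal_add (by positivity) (by positivity),
          ← ENNReal.ofReal_add (by positivity) (by positivity)]
        congr 1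
        ring

end

end Pool.Agent.Y293.FA
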