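import Mathlib
import Pool.Agent.Y293.FA.Base

/-!
# Words, cylinders and good words
-/

namespace Pool.Agent.Y293.FA

open MeasureTheory Set Filter Topology
open scoped ENNReal

noncomputable section

/-- Words of length `k`. -/
def Wd (J : Type) : ℕ → Type
  | 0 => Unit
  | k + 1 => Wd J k × J

/-- The words of a length are finite in number. -/
def fW (J : Type) [Fintype J] : ∀ k, Fintype (Wd J k)
  | 0 => inferInstanceAs (Fintype Unit)
  | k + 1 => by
      haveI := fW J k
      exact inferInstanceAs (Fintype (Wd J k × J))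

instance (J : Type) [Fintype J] (k : ℕ) : Fintype (Wd J k) := fW J k

instance (J : Type) [Nonempty J] (k : ℕ) : Nonempty (Wd J k) := by
  induction k with
  | zero => exact inferInstanceAs (Nonempty Unit)
  | succ k ih => exact inferInstanceAs (Nonempty (Wd J k × J))

theorem sum_succ {J : Type} [Fintype J] {M : Type*} [AddCommMonoid M] (k : ℕ)
    (F : Wd J (k + 1) → M) : ∑ w, F w = ∑ w : Wd J k, ∑ j, F (w, j) := by
  have h : (∑ w, F w) = ∑ w : Wd J k × J, F w := by
    refine Finset.sum_congr ?_ fun _ _ => rfl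
    ext x
    exact ⟨fun _ => Finset.mem_univ _, fun _ => Finset.mem_univ _⟩
  rw [h, Fintype.sum_prod_type]

theorem sum_zero {J : Type} [Fintype J] {M : Type*} [AddCommMonoid M]
    (F : Wd J 0 → M) : ∑ w, F w = F () := by
  have h : (∑ w, F w) = ∑ w : Unit, F w := by
    refine Finset.sum_congr ?_ fun _ _ => rfl
    ext x
    exact ⟨fun _ => Finset.mem_univ _, fun _ => Finset.mem_univ _⟩
  rw [h, Fintype.sum_unique]

theorem card_W (J : Type) [Fintype J] (k : ℕ) :
    Fintype.card (Wd J k) = Fintype.card J ^ k := by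
  induction k with
  | zero =>
    have h := sum_zero (J := J) (fun _ => (1 : ℕ))
    simpa using h
  | succ k ih =>
    have h := sum_succ (J := J) k (fun _ => (1 : ℕ))
    simp only [Finset.sum_const, Finset.card_univ, smul_eq_mul, mul_one] at h
    rw [h, ih, pow_succ]

variable {J : Type} [Fintype J] [Nonempty J] (c : ℂ) (d : J → ℂ)

/-- The translation of a word. -/
def uu : ∀ k, Wd J k → ℂ
  | 0, _ => 0
  | k + 1, w => uu k w.1 + c ^ k * d w.2

variable (ν : Measure ℂ) (A : Set ℂ)

/-- The law of the norm on a cylinder. -/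
def cyl (k : ℕ) (w : Wd J k) : Measure ℝ := ν.map fun z => ‖uu c d k w + c ^ k * z‖

/-- The part of a cylinder in a set. -/
def mA (k : ℕ) (w : Wd J k) : ℝ := ν.real {z | uu c d k w + c ^ k * z ∈ A}

theorem measurable_cyl (k : ℕ) (w : Wd J k) :
    Measurable fun z : ℂ => ‖uu c d k w + c ^ k * z‖ := by fun_prop

theorem measurable_aff (k : ℕ) (w : Wd J k) :
    Measurable fun z : ℂ => uu c d k w + c ^ k * z := by fun_prop

instance [IsProbabilityMeasure ν] (k : ℕ) (w : Wd J k) :
    IsProbabilityMeasure (cyl c d ν k w) :=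
  Measure.isProbabilityMeasure_map (measurable_cyl c d k w).aemeasurable

theorem cyl_zero (w : Wd J 0) : cyl c d ν 0 w = ν.map norm := by
  unfold cyl uu
  simp only [pow_zero, one_mul, zero_add]

theorem mA_zero (w : Wd J 0) : mA c d ν A 0 w = ν.real A := by
  unfold mA uu
  simp only [pow_zero, one_mul, zero_add, setOf_mem_eq]

variable {c d ν A}

theorem aff_succ (k : ℕ) (w : Wd J k) (j : J) (z : ℂ) :
    uu c d k w + c ^ k * (c * z + d j) = uu c d (k + 1) (w, j) + c ^ (k + 1) * z := by
  have h : uu c d (k + 1) (w, j) = uu c d k w + c ^ k * d j := rfl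
  rw [h, pow_succ]
  ring

theorem map_sum' {α β ι : Type*} [MeasurableSpace α] [MeasurableSpace β] (s : Finset ι)
    (m : ι → Measure α) {F : α → β} (hF : Measurable F) :
    (∑ i ∈ s, m i).map F = ∑ i ∈ s, (m i).map F := by
  ext S hS
  rw [Measure.map_apply hF hS, Measure.finsetSum_apply, Measure.finsetSum_apply]
  exact Finset.sum_congr rfl fun i _ => (Measure.map_apply hF hS).symm

theorem real_sum' {α ι : Type*} [MeasurableSpace α] (s : Finset ι) (m : ι → Measure α)
    [∀ i, IsFiniteMeasure (m i)] (S : Set α) :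
    (∑ i ∈ s, m i).real S = ∑ i ∈ s, (m i).real S := by
  unfold Measure.real
  rw [Measure.finsetSum_apply, ENNReal.toReal_sum fun i _ => measure_ne_top _ _]

theorem map_split (hν : ν = (Fintype.card J : ℝ≥0∞)⁻¹ • ∑ j, ν.map fun z => c * z + d j)
    {α : Type*} [MeasurableSpace α] {F : ℂ → α} (hF : Measurable F) :
    ν.map F = (Fintype.card J : ℝ≥0∞)⁻¹ • ∑ j, ν.map fun z => F (c * z + d j) := by
  conv_lhs => rw [hν]
  rw [Measure.map_smul, map_sum' _ _ hF]
  congr 1
  refine Finset.sum_congr rfl fun j _ => ?_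
  rw [Measure.map_map hF (by fun_prop)]
  rfl

theorem cyl_succ (hν : ν = (Fintype.card J : ℝ≥0∞)⁻¹ • ∑ j, ν.map fun z => c * z + d j)
    (k : ℕ) (w : Wd J k) :
    cyl c d ν k w = (Fintype.card J : ℝ≥0∞)⁻¹ • ∑ j, cyl c d ν (k + 1) (w, j) := by
  unfold cyl
  rw [map_split hν (measurable_cyl c d k w)]
  congr 1
  refine Finset.sum_congr rfl fun j _ => ?_
  congr 1
  funext z
  rw [aff_succ]

theorem mA_succ [IsProbabilityMeasure ν]
    (hν : ν = (Fintype.card J : ℝ≥0∞)⁻¹ • ∑ j, ν.map fun z => c * z + d j)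
    (hA : MeasurableSet A) (k : ℕ) (w : Wd J k) :
    mA c d ν A k w = (Fintype.card J : ℝ)⁻¹ * ∑ j, mA c d ν A (k + 1) (w, j) := by
  have h1 : ∀ (k : ℕ) (w : Wd J k), mA c d ν A k w =
      (ν.map fun z => uu c d k w + c ^ k * z).real A := by
    intro k w
    rw [map_measureReal_apply (measurable_aff c d k w) hA]
    rfl
  rw [h1, map_split hν (measurable_aff c d k w), measureReal_ennreal_smul_apply]
  congr 1
  · simp
  · haveI : ∀ j, IsFiniteMeasure
        (ν.map fun z => uu c d k w + c ^ k * (c * z + d j)) := fun j =>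
      Measure.isFiniteMeasure_map _ _
    rw [real_sum']
    refine Finset.sum_congr rfl fun j _ => ?_
    rw [h1]
    congr 2
    funext z
    rw [aff_succ]

end

end Pool.Agent.Y293.FA
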