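import Mathlib
import Pool.Agent.Y293.FA.Words

/-!
# The recursion over the scales
-/

namespace Pool.Agent.Y293.FA

open MeasureTheory Set Filter Topology
open scoped ENNReal

noncomputable section

variable {J : Type} [Fintype J] [Nonempty J] (c : ℂ) (d : J → ℂ) (ν : Measure ℂ) (A : Set ℂ)
  (R : ℝ) (δ B : ℕ → ℝ) (k1 : ℕ)

/-- The cylinder meets the set. -/
def Act (k : ℕ) (w : Wd J k) : Prop := ∃ z ∈ A, ‖z - uu c d k w‖ ≤ R * ‖c ^ k‖

/-- The condition on one level. -/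
def Ok (k : ℕ) (w : Wd J k) : Prop :=
  k1 ≤ k → Act c d A R k w ∧ dd (δ (k + 1)) (δ k) (cyl c d ν k w) ≤ B k

/-- Good words. -/
def Good : ∀ k, Wd J k → Prop
  | 0, w => Ok c d ν A R δ B k1 0 w
  | k + 1, w => Good k w.1 ∧ Ok c d ν A R δ B k1 (k + 1) w

open Classical in
/-- The weight of a word. -/
def wt (k : ℕ) (w : Wd J k) : ℝ :=
  if Good c d ν A R δ B k1 k w then ((Fintype.card J : ℝ) ^ k)⁻¹ else 0

open Classical in
/-- The measure which is the sum of the good cylinders. -/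
def ff (k : ℕ) : Measure ℝ :=
  ∑ w : Wd J k, ENNReal.ofReal (wt c d ν A R δ B k1 k w) • cyl c d ν k w

variable {c d ν A R δ B k1}

theorem card_pos' (J : Type) [Fintype J] [Nonempty J] : (0 : ℝ) < Fintype.card J :=
  Nat.cast_pos.2 Fintype.card_pos

theorem good_ok (k : ℕ) (w : Wd J k) (h : Good c d ν A R δ B k1 k w) :
    Ok c d ν A R δ B k1 k w := by
  cases k with
  | zero => exact h
  | succ k => exact h.2

theorem wt_nonneg (k : ℕ) (w : Wd J k) : 0 ≤ wt c d ν A R δ B k1 k w := by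
  unfold wt
  split_ifs
  · exact inv_nonneg.2 (pow_nonneg (card_pos' J).le _)
  · exact le_rfl

theorem wt_le (k : ℕ) (w : Wd J k) :
    wt c d ν A R δ B k1 k w ≤ ((Fintype.card J : ℝ) ^ k)⁻¹ := by
  unfold wt
  split_ifs
  · exact le_rfl
  · exact inv_nonneg.2 (pow_nonneg (card_pos' J).le _)

theorem wt_succ_le (k : ℕ) (w : Wd J k) (j : J) :
    wt c d ν A R δ B k1 (k + 1) (w, j) ≤ wt c d ν A R δ B k1 k w * (Fintype.card J : ℝ)⁻¹ := by
  unfold wt
  have h : Good c d ν A R δ B k1 (k + 1) (w, j) ↔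
    Good c d ν A R δ B k1 k w ∧ Ok c d ν A R δ B k1 (k + 1) (w, j) := Iff.rfl
  rw [h]
  by_cases h1 : Good c d ν A R δ B k1 k w
  · by_cases h2 : Ok c d ν A R δ B k1 (k + 1) (w, j)
    · rw [if_pos ⟨h1, h2⟩, if_pos h1, pow_succ, mul_inv]
    · rw [if_neg (fun h => h2 h.2), if_pos h1]
      exact mul_nonneg (inv_nonneg.2 (pow_nonneg (card_pos' J).le _))
        (inv_nonneg.2 (card_pos' J).le)
  · rw [if_neg (fun h => h1 h.1), if_neg h1, zero_mul]

variable [IsProbabilityMeasure ν]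

instance (k : ℕ) : IsFiniteMeasure (ff c d ν A R δ B k1 k) := by
  unfold ff
  refine ⟨?_⟩
  rw [Measure.finsetSum_apply]
  refine ENNReal.sum_lt_top.2 fun w _ => ?_
  rw [Measure.smul_apply, smul_eq_mul]
  exact ENNReal.mul_lt_top ENNReal.ofReal_lt_top (measure_lt_top _ _)

theorem ff_real (k : ℕ) (S : Set ℝ) : (ff c d ν A R δ B k1 k).real S =
    ∑ w : Wd J k, wt c d ν A R δ B k1 k w * (cyl c d ν k w).real S := by
  unfold ff Measure.real
  rw [Measure.finsetSum_apply, ENNReal.toReal_sum]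
  · refine Finset.sum_congr rfl fun w _ => ?_
    rw [Measure.smul_apply, smul_eq_mul, ENNReal.toReal_mul, ENNReal.toReal_ofReal
      (wt_nonneg k w)]
  · intro w _
    rw [Measure.smul_apply, smul_eq_mul]
    exact (ENNReal.mul_lt_top ENNReal.ofReal_lt_top (measure_lt_top _ _)).ne

theorem ff_univ (k : ℕ) : (ff c d ν A R δ B k1 k).real univ =
    ∑ w : Wd J k, wt c d ν A R δ B k1 k w := by
  rw [ff_real]
  refine Finset.sum_congr rfl fun w _ => ?_
  rw [probReal_univ, mul_one]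

theorem ff_succ_le (hν : ν = (Fintype.card J : ℝ≥0∞)⁻¹ • ∑ j, ν.map fun z => c * z + d j)
    (k : ℕ) : ff c d ν A R δ B k1 (k + 1) ≤ ff c d ν A R δ B k1 k := by
  unfold ff
  rw [sum_succ]
  refine Finset.sum_le_sum fun w _ => ?_
  rw [cyl_succ hν k w, smul_smul, Finset.smul_sum]
  refine Finset.sum_le_sum fun j _ => ?_
  have h : ENNReal.ofReal (wt c d ν A R δ B k1 (k + 1) (w, j)) ≤
      ENNReal.ofReal (wt c d ν A R δ B k1 k w) * (Fintype.card J : ℝ≥0∞)⁻¹ := by
    refine (ENNReal.ofReal_le_ofReal (wt_succ_le k w j)).trans_eq ?_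
    rw [ENNReal.ofReal_mul (wt_nonneg k w), ENNReal.ofReal_inv_of_pos (card_pos' J),
      ENNReal.ofReal_natCast]
  refine Measure.le_iff.2 fun S _ => ?_
  rw [Measure.smul_apply, Measure.smul_apply, smul_eq_mul, smul_eq_mul]
  exact mul_le_mul_left h _

theorem ff_anti (hν : ν = (Fintype.card J : ℝ≥0∞)⁻¹ • ∑ j, ν.map fun z => c * z + d j) :
    Antitone (ff c d ν A R δ B k1) := antitone_nat_of_succ_le (ff_succ_le hν)

theorem ff_zero_le : ff c d ν A R δ B k1 0 ≤ ν.map norm := by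
  unfold ff
  rw [sum_zero, cyl_zero]
  refine Measure.le_iff.2 fun S _ => ?_
  rw [Measure.smul_apply, smul_eq_mul]
  refine (mul_le_mul_left (ENNReal.ofReal_le_one.2 ?_) _).trans_eq (one_mul _)
  refine (wt_le 0 _).trans ?_
  simp

/-- Mass outside the active words. -/
theorem mA_of_not_act (hR : ∀ᵐ z ∂ν, ‖z‖ ≤ R) (k : ℕ) (w : Wd J k)
    (h : ¬ Act c d A R k w) : mA c d ν A k w = 0 := by
  unfold mA
  have h0 : ν {z | uu c d k w + c ^ k * z ∈ A} = 0 := by
    refine measure_mono_null ?_ hR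
    intro z hz hz'
    refine h ⟨_, hz, ?_⟩
    rw [add_sub_cancel_left, norm_mul, mul_comm]
    exact mul_le_mul_of_nonneg_right hz' (norm_nonneg _)
  rw [Measure.real, h0, ENNReal.toReal_zero]

theorem mA_le_one (k : ℕ) (w : Wd J k) : mA c d ν A k w ≤ 1 := measureReal_le_one

theorem mA_nonneg (k : ℕ) (w : Wd J k) : 0 ≤ mA c d ν A k w := measureReal_nonneg

open Classical in
/-- The mass of the words which violate the condition. -/
theorem bad_le (hR : ∀ᵐ z ∂ν, ‖z‖ ≤ R) (k : ℕ) {C g : ℝ} (hB : 0 < B k)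
    (hC : ∑ w : Wd J k, (if Act c d A R k w then dd (δ (k + 1)) (δ k) (cyl c d ν k w) else 0) ≤
      (Fintype.card J : ℝ) ^ k * (C * g * B k)) :
    ∑ w : Wd J k, (if Ok c d ν A R δ B k1 k w then 0 else mA c d ν A k w) ≤
      (Fintype.card J : ℝ) ^ k * (C * g) := by
  have h1 : ∀ w : Wd J k, (if Ok c d ν A R δ B k1 k w then 0 else mA c d ν A k w) * B k ≤
      if Act c d A R k w then dd (δ (k + 1)) (δ k) (cyl c d ν k w) else 0 := by
    intro w
    by_cases h : Ok c d ν A R δ B k1 k w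
    · rw [if_pos h, zero_mul]
      split_ifs
      · exact dd_nonneg _ _ _
      · exact le_rfl
    · rw [if_neg h]
      by_cases ha : Act c d A R k w
      · rw [if_pos ha]
        have h2 : B k < dd (δ (k + 1)) (δ k) (cyl c d ν k w) := by
          by_contra h3
          exact h fun _ => ⟨ha, not_lt.1 h3⟩
        calc mA c d ν A k w * B k ≤ 1 * B k :=
              mul_le_mul_of_nonneg_right (mA_le_one k w) hB.le
          _ ≤ _ := by rw [one_mul]; exact h2.le
      · rw [if_neg ha, mA_of_not_act hR k w ha, zero_mul]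
  have h2 : (∑ w : Wd J k, (if Ok c d ν A R δ B k1 k w then 0 else mA c d ν A k w)) * B k ≤
      (Fintype.card J : ℝ) ^ k * (C * g) * B k := by
    rw [Finset.sum_mul]
    refine (Finset.sum_le_sum fun w _ => h1 w).trans (hC.trans_eq ?_)
    ring
  exact le_of_mul_le_mul_right h2 hB

theorem sum_ok_of_lt (k : ℕ) (h : k < k1) (w : Wd J k) : Ok c d ν A R δ B k1 k w :=
  fun h2 => absurd h2 (not_le.2 h)

open Classical in
theorem step_mass (hν : ν = (Fintype.card J : ℝ≥0∞)⁻¹ • ∑ j, ν.map fun z => c * z + d j)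
    (hA : MeasurableSet A) (k : ℕ) :
    (∑ w : Wd J k, wt c d ν A R δ B k1 k w * mA c d ν A k w) -
      ((Fintype.card J : ℝ) ^ (k + 1))⁻¹ *
        ∑ w : Wd J (k + 1), (if Ok c d ν A R δ B k1 (k + 1) w then 0 else mA c d ν A (k + 1) w) ≤
    ∑ w : Wd J (k + 1), wt c d ν A R δ B k1 (k + 1) w * mA c d ν A (k + 1) w := by
  have h1 : (∑ w : Wd J k, wt c d ν A R δ B k1 k w * mA c d ν A k w) =
      ∑ w : Wd J k, ∑ j : J, wt c d ν A R δ B k1 k w * (Fintype.card J : ℝ)⁻¹ *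
        mA c d ν A (k + 1) (w, j) := by
    refine Finset.sum_congr rfl fun w _ => ?_
    rw [mA_succ hν hA, ← Finset.mul_sum]
    ring
  rw [sub_le_iff_le_add, h1, sum_succ, sum_succ, Finset.mul_sum, ← Finset.sum_add_distrib]
  refine Finset.sum_le_sum fun w _ => ?_
  rw [Finset.mul_sum, ← Finset.sum_add_distrib]
  refine Finset.sum_le_sum fun j _ => ?_
  have hn := mA_nonneg (c := c) (d := d) (ν := ν) (A := A) (k + 1) ((w, j) : Wd J (k + 1))
  have h : Good c d ν A R δ B k1 (k + 1) (w, j) ↔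
    Good c d ν A R δ B k1 k w ∧ Ok c d ν A R δ B k1 (k + 1) (w, j) := Iff.rfl
  have hp : (0 : ℝ) ≤ ((Fintype.card J : ℝ) ^ (k + 1))⁻¹ :=
    inv_nonneg.2 (pow_nonneg (card_pos' J).le _)
  unfold wt
  rw [h]
  by_cases h1 : Good c d ν A R δ B k1 k w
  · by_cases h2 : Ok c d ν A R δ B k1 (k + 1) (w, j)
    · rw [if_pos h1, if_pos (And.intro h1 h2), if_pos h2, mul_zero, add_zero, pow_succ, mul_inv]
    · rw [if_pos h1, if_neg (fun h : _ ∧ _ => h2 h.2), if_neg h2, zero_mul, zero_add, pow_succ,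
        mul_inv]
  · rw [if_neg h1, if_neg (fun h : _ ∧ _ => h1 h.1), zero_mul, zero_mul, zero_add]
    split_ifs
    · simp
    · exact mul_nonneg hp hn

end

end Pool.Agent.Y293.FA
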