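import Mathlib
import Pool.Agent.Y293.FA.Rec

/-!
# The recursion over the scales, mass
-/

namespace Pool.Agent.Y293.FA

open MeasureTheory Set Filter Topology
open scoped ENNReal

noncomputable section

variable {J : Type} [Fintype J] [Nonempty J] {c : ℂ} {d : J → ℂ} {ν : Measure ℂ} {A : Set ℂ}
  {R : ℝ} {δ B : ℕ → ℝ} {k1 : ℕ} [IsProbabilityMeasure ν]

/-- The lower bound of the mass. -/
theorem mass_ge (hR : ∀ᵐ z ∂ν, ‖z‖ ≤ R)
    (hν : ν = (Fintype.card J : ℝ≥0∞)⁻¹ • ∑ j, ν.map fun z => c * z + d j)
    (hA : MeasurableSet A) {C g : ℝ} (hC0 : 0 ≤ C) (hg0 : 0 < g) (hg1 : g < 1)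
    (hB : ∀ k, 0 < B k)
    (hC : ∀ k, k1 ≤ k → ∑ w : Wd J k, (open Classical in
      if Act c d A R k w then dd (δ (k + 1)) (δ k) (cyl c d ν k w) else 0) ≤
      (Fintype.card J : ℝ) ^ k * (C * g ^ k * B k)) (k : ℕ) :
    ν.real A - C * g ^ k1 / (1 - g) ≤ ∑ w : Wd J k, wt c d ν A R δ B k1 k w := by
  classical
  have hJ := card_pos' J
  have key : ∀ k, ν.real A - ∑ i ∈ Finset.range (k + 1), (if k1 ≤ i then C * g ^ i else 0) ≤
      ∑ w : Wd J k, wt c d ν A R δ B k1 k w * mA c d ν A k w := by
    have hbad : ∀ k, ((Fintype.card J : ℝ) ^ k)⁻¹ * ∑ w : Wd J k,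
        (if Ok c d ν A R δ B k1 k w then 0 else mA c d ν A k w) ≤
          if k1 ≤ k then C * g ^ k else 0 := by
      intro k
      split_ifs with h
      · have h1 := bad_le (k1 := k1) hR k (hB k) (hC k h)
        rw [inv_mul_le_iff₀ (pow_pos hJ _)]
        exact h1
      · rw [Finset.sum_eq_zero, mul_zero]
        intro w _
        rw [if_pos (sum_ok_of_lt k (not_le.1 h) w)]
    intro k
    induction k with
    | zero =>
      have h0 := hbad 0
      rw [Finset.sum_range_one, sum_zero]
      rw [sum_zero, pow_zero, inv_one, one_mul] at h0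
      have h2 : wt c d ν A R δ B k1 0 () * mA c d ν A 0 () =
          mA c d ν A 0 () - (if Ok c d ν A R δ B k1 0 () then 0 else mA c d ν A 0 ()) := by
        unfold wt
        have h3 : Good c d ν A R δ B k1 0 () ↔ Ok c d ν A R δ B k1 0 () := Iff.rfl
        rw [h3]
        split_ifs <;> simp
      have hm : mA c d ν A 0 () = ν.real A := mA_zero c d ν A ()
      refine le_of_le_of_eq ?_ h2.symm
      linarith
    | succ k ih =>
      have h1 := step_mass (R := R) (δ := δ) (B := B) (k1 := k1) hν hA k
      have h2 := hbad (k + 1)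
      rw [Finset.sum_range_succ]
      linarith
  have h1 : ∑ w : Wd J k, wt c d ν A R δ B k1 k w * mA c d ν A k w ≤
      ∑ w : Wd J k, wt c d ν A R δ B k1 k w := by
    refine Finset.sum_le_sum fun w _ => ?_
    exact mul_le_of_le_one_right (wt_nonneg k w) (mA_le_one k w)
  have h2 : ∑ i ∈ Finset.range (k + 1), (if k1 ≤ i then C * g ^ i else 0) ≤
      C * g ^ k1 / (1 - g) := by
    have h3 : ∀ n, ∑ i ∈ Finset.range n, (if k1 ≤ i then C * g ^ i else 0) ≤
        C * (g ^ k1 - g ^ (max k1 n)) / (1 - g) := by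
      intro n
      induction n with
      | zero => simp
      | succ n ih =>
        rw [Finset.sum_range_succ]
        have hg : 0 < 1 - g := by linarith
        split_ifs with h
        · rw [max_eq_right h] at ih
          rw [max_eq_right (by omega : k1 ≤ n + 1)]
          calc _ ≤ C * (g ^ k1 - g ^ n) / (1 - g) + C * g ^ n := by linarith
            _ = C * (g ^ k1 - g ^ (n + 1)) / (1 - g) := by
              field_simp
              ring
        · rw [max_eq_left (by omega : n ≤ k1)] at ih
          rw [max_eq_left (by omega : n + 1 ≤ k1)]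
          linarith
    refine (h3 _).trans ?_
    refine div_le_div_of_nonneg_right ?_ (by linarith)
    refine mul_le_mul_of_nonneg_left ?_ hC0
    have := pow_pos hg0 (max k1 (k + 1))
    linarith
  linarith [key k]

end

end Pool.Agent.Y293.FA
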