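import Mathlib
import Pool.Agent.Y293.FA.Rec

/-!
# The recursion over the scales, norms
-/

namespace Pool.Agent.Y293.FA

open MeasureTheory Set Filter Topology
open scoped ENNReal

noncomputable section

/-- One step of the recursion for the norms. -/
theorem step_norm (hadj : S_ADJ) : ∃ C₁ : ℝ, 0 < C₁ ∧
    ∀ (J : Type) [Fintype J] [Nonempty J] (c : ℂ) (d : J → ℂ) (ν : Measure ℂ) (A : Set ℂ)
    (R : ℝ) (δ B : ℕ → ℝ) (k1 : ℕ) [IsProbabilityMeasure ν], (∀ᵐ z ∂ν, ‖z‖ ≤ R) → 1 ≤ R →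
    (ν = (Fintype.card J : ℝ≥0∞)⁻¹ • ∑ j, ν.map fun z => c * z + d j) → (∀ k, 0 < δ k) →
    (∀ k, δ (k + 1) ≤ δ k) → (∀ k, δ k ≤ ‖c ^ k‖) → (∀ k, 0 < B k) → ∀ k, k1 ≤ k →
    √(qq (δ (k + 1)) (ff c d ν A R δ B k1 (k + 1))) ≤
      √(qq (δ k) (ff c d ν A R δ B k1 k)) * (1 + √(C₁ * B k * (R * ‖c ^ k‖))) := by
  classical
  obtain ⟨C₁, hC₁, hadj⟩ := hadj
  refine ⟨C₁, hC₁, ?_⟩
  intro J _ _ c d ν A R δ B k1 _ hR hR1 hν hδ hδ2 hδ3 hB k hk
  have h1 : √(qq (δ (k + 1)) (ff c d ν A R δ B k1 (k + 1))) ≤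
      √(qq (δ (k + 1)) (ff c d ν A R δ B k1 k)) :=
    Real.sqrt_le_sqrt (mono _ _ _ (hδ _) (ff_succ_le hν k))
  have h2 := mink (ff c d ν A R δ B k1 k) (δ (k + 1)) (δ k) (hδ _) (hδ _)
  have h3 : dd (δ (k + 1)) (δ k) (ff c d ν A R δ B k1 k) ≤
      C₁ * B k * (R * ‖c ^ k‖) * qq (δ k) (ff c d ν A R δ B k1 k) := by
    have hs : ff c d ν A R δ B k1 k = ∑ i : {w : Wd J k // Good c d ν A R δ B k1 k w},
        ENNReal.ofReal (((Fintype.card J : ℝ) ^ k)⁻¹) • cyl c d ν k i.1 := by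
      unfold ff wt
      have e1 : ∀ w : Wd J k, ENNReal.ofReal (if Good c d ν A R δ B k1 k w then
          ((Fintype.card J : ℝ) ^ k)⁻¹ else 0) • cyl c d ν k w =
          if Good c d ν A R δ B k1 k w then
            ENNReal.ofReal ((Fintype.card J : ℝ) ^ k)⁻¹ • cyl c d ν k w else 0 := by
        intro w
        split_ifs
        · rfl
        · rw [ENNReal.ofReal_zero, zero_smul]
      rw [Finset.sum_congr rfl fun w _ => e1 w, ← Finset.sum_filter]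
      refine Finset.sum_subtype _ ?_ _
      intro w
      simp
    have h4 : ∀ i : {w : Wd J k // Good c d ν A R δ B k1 k w}, cyl c d ν k i.1
        (Icc (‖uu c d k i.1‖ - R * ‖c ^ k‖) (‖uu c d k i.1‖ + R * ‖c ^ k‖))ᶜ = 0 := by
      intro i
      unfold cyl
      rw [Measure.map_apply (measurable_cyl c d k i.1) measurableSet_Icc.compl]
      refine measure_mono_null ?_ hR
      intro z hz hz'
      refine hz ?_
      have h5 : ‖c ^ k * z‖ ≤ R * ‖c ^ k‖ := by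
        rw [norm_mul, mul_comm]
        exact mul_le_mul_of_nonneg_right hz' (norm_nonneg _)
      have h6 := norm_add_le (uu c d k i.1) (c ^ k * z)
      have h7 := norm_sub_norm_le (uu c d k i.1) (-(c ^ k * z))
      rw [sub_neg_eq_add, norm_neg] at h7
      rw [mem_Icc]
      constructor <;> linarith
    have h5 : δ k ≤ R * ‖c ^ k‖ :=
      calc δ k ≤ ‖c ^ k‖ := hδ3 k
        _ = 1 * ‖c ^ k‖ := (one_mul _).symm
        _ ≤ R * ‖c ^ k‖ := mul_le_mul_of_nonneg_right hR1 (norm_nonneg _)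
    have h6 : ∀ i : {w : Wd J k // Good c d ν A R δ B k1 k w},
        dd (δ (k + 1)) (δ k) (cyl c d ν k i.1) ≤ B k := fun i => (good_ok k i.1 i.2 hk).2
    have h7 := hadj {w : Wd J k // Good c d ν A R δ B k1 k w}
      (fun _ => ((Fintype.card J : ℝ) ^ k)⁻¹) (fun i => cyl c d ν k i.1)
      (fun i => ‖uu c d k i.1‖) (R * ‖c ^ k‖) (δ (k + 1)) (δ k) (B k)
      (fun _ => inv_nonneg.2 (pow_nonneg (card_pos' J).le _)) (hδ _) (hδ2 k) h5 (hB k).le h4 h6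
    rw [← hs] at h7
    exact h7
  have h4 : √(dd (δ (k + 1)) (δ k) (ff c d ν A R δ B k1 k)) ≤
      √(C₁ * B k * (R * ‖c ^ k‖)) * √(qq (δ k) (ff c d ν A R δ B k1 k)) := by
    rw [← Real.sqrt_mul' _ (qq_nonneg _ _)]
    exact Real.sqrt_le_sqrt h3
  calc _ ≤ _ := h1
    _ ≤ _ := h2
    _ ≤ √(qq (δ k) (ff c d ν A R δ B k1 k)) +
        √(C₁ * B k * (R * ‖c ^ k‖)) * √(qq (δ k) (ff c d ν A R δ B k1 k)) := by gcongr
    _ = _ := by ring

end

end Pool.Agent.Y293.FA
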