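import Mathlib
import Pool.Agent.Y293.FA.Rec2
import Pool.Agent.Y293.FA.Rec3

/-!
# The conclusion of the recursion, differences of self-similar measures
-/

namespace Pool.Agent.Y293.FA

open MeasureTheory Set Filter Topology
open scoped ENNReal

noncomputable section

/-- The conclusion of the recursion. -/
theorem rec_main (hadj : S_ADJ) (hpos : S_POS) (J : Type) [Fintype J] [Nonempty J] (c : ℂ)
    (hc0 : c ≠ 0) (d : J → ℂ) (ν : Measure ℂ) [IsProbabilityMeasure ν] (R : ℝ)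
    (hR1 : 1 ≤ R) (hR : ∀ᵐ z ∂ν, ‖z‖ ≤ R)
    (hν : ν = (Fintype.card J : ℝ≥0∞)⁻¹ • ∑ j, ν.map fun z => c * z + d j) (K : Set ℝ)
    (hK : IsCompact K) (hK0 : (ν.map norm) Kᶜ = 0) (A : Set ℂ) (hA : MeasurableSet A)
    (hA0 : 0 < ν.real A) (δ : ℕ → ℝ) (g C : ℝ) (hδ : ∀ k, 0 < δ k)
    (hδ2 : ∀ k, δ (k + 1) ≤ δ k) (hδ3 : ∀ k, δ k ≤ ‖c ^ k‖) (hδ4 : Tendsto δ atTop (𝓝 0))
    (hg0 : 0 < g) (hg1 : g < 1) (hC0 : 0 ≤ C) (k0 : ℕ)
    (hC : ∀ k, k0 ≤ k → ∑ w : Wd J k, (open Classical in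
      if Act c d A R k w then dd (δ (k + 1)) (δ k) (cyl c d ν k w) else 0) ≤
      (Fintype.card J : ℝ) ^ k * (C * g ^ k * (g ^ k / ‖c ^ k‖))) : 0 < volume K := by
  obtain ⟨C₁, hC₁, hstep⟩ := step_norm hadj
  have hck : ∀ k : ℕ, 0 < ‖c ^ k‖ := fun k => norm_pos_iff.2 (pow_ne_zero _ hc0)
  obtain ⟨k1, hk1, hk2⟩ : ∃ k1, k0 ≤ k1 ∧ C * g ^ k1 / (1 - g) ≤ ν.real A / 2 := by
    have h1 : Tendsto (fun k : ℕ => C * g ^ k / (1 - g)) atTop (𝓝 (C * 0 / (1 - g))) :=
      ((tendsto_pow_atTop_nhds_zero_of_lt_one hg0.le hg1).const_mul C).div_const _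
    rw [mul_zero, zero_div] at h1
    have h2 := (h1.eventually (eventually_lt_nhds (half_pos hA0))).and (eventually_ge_atTop k0)
    obtain ⟨k1, h3, h4⟩ := h2.exists
    exact ⟨k1, h4, h3.le⟩
  let B : ℕ → ℝ := fun k => g ^ k / ‖c ^ k‖
  have hB : ∀ k, 0 < B k := fun k => div_pos (pow_pos hg0 _) (hck k)
  have hmass := mass_ge (δ := δ) (k1 := k1) (B := B) hR hν hA hC0 hg0 hg1 hB
    (fun k hk => hC k (hk1.trans hk))
  let x : ℕ → ℝ := fun n => √(qq (δ (k1 + n)) (ff c d ν A R δ B k1 (k1 + n)))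
  have hx0 : ∀ n, 0 ≤ x n := fun n => Real.sqrt_nonneg _
  let D : ℝ := √(C₁ * R)
  let h : ℝ := √g
  have hh0 : 0 ≤ h := Real.sqrt_nonneg _
  have hh1 : h < 1 := by
    have := Real.sqrt_lt_sqrt hg0.le hg1
    rwa [Real.sqrt_one] at this
  have hD0 : 0 ≤ D := Real.sqrt_nonneg _
  have hx : ∀ n, x (n + 1) ≤ x n * (1 + D * h ^ n) := by
    intro n
    have h1 := hstep J c d ν A R δ B k1 hR hR1 hν hδ hδ2 hδ3 hB (k1 + n) (Nat.le_add_right _ _)
    have h2 : √(C₁ * B (k1 + n) * (R * ‖c ^ (k1 + n)‖)) = D * h ^ (k1 + n) := by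
      have h3 : C₁ * B (k1 + n) * (R * ‖c ^ (k1 + n)‖) = C₁ * R * g ^ (k1 + n) := by
        have := (hck (k1 + n)).ne'
        simp only [B]
        field_simp
      have h4 : √(g ^ (k1 + n)) = h ^ (k1 + n) := by
        rw [Real.sqrt_eq_iff_mul_self_eq (pow_nonneg hg0.le _) (pow_nonneg hh0 _), ← mul_pow,
          Real.mul_self_sqrt hg0.le]
      rw [h3, Real.sqrt_mul' _ (pow_nonneg hg0.le _), h4]
    rw [h2] at h1
    refine h1.trans (mul_le_mul_of_nonneg_left ?_ (hx0 n))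
    have h5 : h ^ (k1 + n) ≤ h ^ n := pow_le_pow_of_le_one hh0 hh1.le (Nat.le_add_left _ _)
    have := mul_le_mul_of_nonneg_left h5 hD0
    linarith
  have hx2 : ∀ n, x n ≤ x 0 * Real.exp (D * ∑ i ∈ Finset.range n, h ^ i) := by
    intro n
    induction n with
    | zero => simp
    | succ n ih =>
      have h1 : 1 + D * h ^ n ≤ Real.exp (D * h ^ n) := by
        have := Real.add_one_le_exp (D * h ^ n)
        linarith
      calc x (n + 1) ≤ x n * (1 + D * h ^ n) := hx n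
        _ ≤ (x 0 * Real.exp (D * ∑ i ∈ Finset.range n, h ^ i)) * Real.exp (D * h ^ n) := by
            gcongr
        _ = _ := by rw [Finset.sum_range_succ, mul_assoc, ← Real.exp_add, mul_add]
  have hx3 : ∀ n, x n ≤ x 0 * Real.exp (D * (1 - h)⁻¹) := by
    intro n
    refine (hx2 n).trans ?_
    gcongr
    exact (Summable.sum_le_tsum _ (fun _ _ => pow_nonneg hh0 _)
        (summable_geometric_of_lt_one hh0 hh1)).trans_eq (tsum_geometric_of_lt_one hh0 hh1)
  refine hpos K hK (fun n => δ (k1 + n)) (fun n => hδ _) ?_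
    (fun n => ff c d ν A R δ B k1 (k1 + n)) ?_ (ν.real A / 2)
    ((x 0 * Real.exp (D * (1 - h)⁻¹)) ^ 2) (half_pos hA0) ?_ ?_
  · have := hδ4.comp (tendsto_add_atTop_nat k1)
    refine this.congr fun n => ?_
    simp only [Function.comp]
    rw [add_comm]
  · intro n
    have h1 := ((ff_anti (A := A) (R := R) (δ := δ) (B := B) (k1 := k1) hν
      (Nat.zero_le (k1 + n))).trans ff_zero_le) Kᶜ
    rw [hK0] at h1
    exact le_antisymm h1 zero_le
  · intro n
    rw [ff_univ]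
    have := hmass (k1 + n)
    linarith
  · intro n
    have h1 : qq (δ (k1 + n)) (ff c d ν A R δ B k1 (k1 + n)) = x n ^ 2 :=
      (Real.sq_sqrt (qq_nonneg _ _)).symm
    rw [h1]
    exact pow_le_pow_left₀ (hx0 n) (hx3 n) 2

/-- The measure as an average over the words. -/
theorem word {J : Type} [Fintype J] [Nonempty J] {c : ℂ} {d : J → ℂ} {ν : Measure ℂ}
    (hν : ν = (Fintype.card J : ℝ≥0∞)⁻¹ • ∑ j, ν.map fun z => c * z + d j) (k : ℕ) :
    ν = (Fintype.card (Wd J k) : ℝ≥0∞)⁻¹ • ∑ w : Wd J k, ν.map fun z =>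
      uu c d k w + c ^ k * z := by
  induction k with
  | zero =>
    rw [card_W, pow_zero, Nat.cast_one, inv_one, one_smul, sum_zero]
    have h : (fun z : ℂ => uu c d 0 () + c ^ 0 * z) = id := by
      funext z
      have h1 : uu c d 0 () = 0 := rfl
      rw [h1, pow_zero, one_mul, zero_add]
      rfl
    rw [h, Measure.map_id]
  | succ k ih =>
    have h1 : ∀ w : Wd J k, ν.map (fun z => uu c d k w + c ^ k * z) =
        (Fintype.card J : ℝ≥0∞)⁻¹ • ∑ j, ν.map fun z =>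
          uu c d (k + 1) (w, j) + c ^ (k + 1) * z := by
      intro w
      rw [map_split hν (measurable_aff c d k w)]
      congr 1
      refine Finset.sum_congr rfl fun j _ => ?_
      congr 1
      funext z
      rw [aff_succ]
    rw [sum_succ]
    rw [Finset.sum_congr rfl fun w _ => h1 w, ← Finset.smul_sum, smul_smul] at ih
    rw [card_W] at ih ⊢
    have h2 : (((Fintype.card J ^ (k + 1) : ℕ) : ℝ≥0∞))⁻¹ =
        (((Fintype.card J ^ k : ℕ) : ℝ≥0∞))⁻¹ * (Fintype.card J : ℝ≥0∞)⁻¹ := by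
      rw [pow_succ, Nat.cast_mul, ENNReal.mul_inv]
      · exact Or.inr (ENNReal.natCast_ne_top _)
      · exact Or.inl (ENNReal.natCast_ne_top _)
    rw [h2]
    exact ih

instance (μ : Measure ℂ) [IsProbabilityMeasure μ] : IsProbabilityMeasure (dif μ) :=
  Measure.isProbabilityMeasure_map (by fun_prop)

theorem dif_split {N : ℕ} {c : ℂ} {T : Fin N → ℂ} {μ : Measure ℂ} [IsProbabilityMeasure μ]
    (hμ : μ = (N : ℝ≥0∞)⁻¹ • ∑ i, μ.map (fun z => c * z + T i)) :
    dif μ = (Fintype.card (Fin N × Fin N) : ℝ≥0∞)⁻¹ •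
      ∑ j : Fin N × Fin N, (dif μ).map fun z => c * z + (T j.1 - T j.2) := by
  have L : ∀ G : ℂ → ℝ≥0∞, Measurable G →
      ∫⁻ z, G z ∂μ = (N : ℝ≥0∞)⁻¹ * ∑ i, ∫⁻ z, G (c * z + T i) ∂μ := by
    intro G hG
    conv_lhs => rw [hμ]
    rw [lintegral_smul_measure, lintegral_finset_sum_measure, smul_eq_mul]
    congr 1
    refine Finset.sum_congr rfl fun i _ => ?_
    rw [lintegral_map hG (by fun_prop)]
  have D : ∀ G : ℂ → ℝ≥0∞, Measurable G →
      ∫⁻ z, G z ∂(dif μ) = ∫⁻ x, ∫⁻ y, G (x - y) ∂μ ∂μ := by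
    intro G hG
    unfold dif
    rw [lintegral_map hG (by fun_prop), lintegral_prod _ (by fun_prop)]
  have F : ∀ G : ℂ → ℝ≥0∞, Measurable G → ∫⁻ z, G z ∂(dif μ) =
      (N : ℝ≥0∞)⁻¹ * ((N : ℝ≥0∞)⁻¹ * ∑ i, ∑ j,
        ∫⁻ z, G (c * z + (T i - T j)) ∂(dif μ)) := by
    intro G hG
    rw [D G hG]
    have h1 : ∀ x : ℂ, ∫⁻ y, G (x - y) ∂μ =
        (N : ℝ≥0∞)⁻¹ * ∑ j, ∫⁻ y, G (x - (c * y + T j)) ∂μ := fun x =>
      L (fun y => G (x - y)) (by fun_prop)
    have hm : ∀ j, Measurable fun x : ℂ => ∫⁻ y, G (x - (c * y + T j)) ∂μ := by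
      intro j
      exact Measurable.lintegral_prod_right' (f := fun p : ℂ × ℂ => G (p.1 - (c * p.2 + T j)))
        (by fun_prop)
    have hm2 : Measurable fun x : ℂ => ∑ j, ∫⁻ y, G (x - (c * y + T j)) ∂μ :=
      Finset.measurable_sum _ fun j _ => hm j
    simp only [h1]
    rw [lintegral_const_mul _ hm2, L _ hm2]
    congr 2
    refine Finset.sum_congr rfl fun i _ => ?_
    have hm3 : ∀ j, Measurable fun z : ℂ => ∫⁻ y, G (c * z + T i - (c * y + T j)) ∂μ :=
      fun j => (hm j).comp (by fun_prop : Measurable fun z : ℂ => c * z + T i)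
    rw [lintegral_finset_sum _ fun j _ => hm3 j]
    refine Finset.sum_congr rfl fun j _ => ?_
    rw [D (fun z => G (c * z + (T i - T j))) (by fun_prop)]
    refine lintegral_congr fun x => lintegral_congr fun y => ?_
    congr 1
    ring
  ext S hS
  have h1 := F (S.indicator 1) (measurable_one.indicator hS)
  rw [lintegral_indicator_one hS] at h1
  rw [h1, Measure.smul_apply, smul_eq_mul, Measure.finsetSum_apply, Fintype.sum_prod_type,
    ← mul_assoc]
  congr 1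
  · rw [Fintype.card_prod, Fintype.card_fin, Nat.cast_mul, ENNReal.mul_inv]
    · exact Or.inr (ENNReal.natCast_ne_top _)
    · exact Or.inl (ENNReal.natCast_ne_top _)
  · refine Finset.sum_congr rfl fun i _ => Finset.sum_congr rfl fun j _ => ?_
    rw [Measure.map_apply (by fun_prop) hS, ← lintegral_indicator_one
      (hS.preimage (by fun_prop : Measurable fun z : ℂ => c * z + (T i - T j)))]
    rfl

end

end Pool.Agent.Y293.FA
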