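import Mathlib
import Pool.Agent.Y293.FA.Stm2
import Pool.Agent.Y293.FA.Hom1

/-!
# The homogeneous case
-/

namespace Pool.Agent.Y293.FA

open MeasureTheory Set Filter Topology
open scoped ENNReal

noncomputable section

/-- The homogeneous case, from the ingredients. -/
theorem hom (hconv : S_CONV) (hadj : S_ADJ) (hpos : S_POS) (hen : S_ENERGY) (hdir : S_DIR)
    (hest : S_EST) : S_HOM := by
  classical
  intro c hc0 hc1 N T E hE hinv μ _ hμE hμ s hs1 hs2 hI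
  have hN : 0 < N := by
    rcases Nat.eq_zero_or_pos N with h | h
    · exfalso
      subst h
      have h1 : μ univ = 0 := by
        rw [hμ]
        simp
      rw [measure_univ] at h1
      exact one_ne_zero h1
    · exact h
  haveI : Nonempty (Fin N × Fin N) := ⟨(⟨0, hN⟩, ⟨0, hN⟩)⟩
  have hν := dif_split hμ
  -- the radius
  obtain ⟨r, hr⟩ := hE.isBounded.subset_closedBall (0 : ℂ)
  let R : ℝ := max 1 (2 * r)
  have hR1 : 1 ≤ R := le_max_left _ _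
  have hR0 : 0 < R := zero_lt_one.trans_le hR1
  have hEE : ∀ᵐ z ∂(dif μ), ∃ x ∈ E, ∃ y ∈ E, z = x - y := by
    have hm : MeasurableSet {z : ℂ | ∃ x ∈ E, ∃ y ∈ E, z = x - y} := by
      have h1 : {z : ℂ | ∃ x ∈ E, ∃ y ∈ E, z = x - y} =
          (fun p : ℂ × ℂ => p.1 - p.2) '' (E ×ˢ E) := by
        ext z
        constructor
        · rintro ⟨x, hx, y, hy, rfl⟩
          exact ⟨(x, y), ⟨hx, hy⟩, rfl⟩
        · rintro ⟨p, ⟨hx, hy⟩, rfl⟩
          exact ⟨p.1, hx, p.2, hy, rfl⟩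
      rw [h1]
      exact ((hE.prod hE).image (by fun_prop)).measurableSet
    have hm' : MeasurableSet {z : ℂ | ∃ x ∈ E, ∃ y ∈ E, z = x - y}ᶜ := hm.compl
    have h2 : dif μ {z : ℂ | ∃ x ∈ E, ∃ y ∈ E, z = x - y}ᶜ = 0 := by
      unfold dif
      rw [Measure.map_apply (by fun_prop) hm']
      refine measure_mono_null (t := Eᶜ ×ˢ univ ∪ univ ×ˢ Eᶜ) ?_ ?_
      · rintro ⟨x, y⟩ hxy
        by_contra h3
        rw [mem_union, not_or] at h3
        obtain ⟨h3, h4⟩ := h3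
        have h5 : x ∈ E := by
          by_contra h6
          exact h3 ⟨h6, mem_univ _⟩
        have h6 : y ∈ E := by
          by_contra h7
          exact h4 ⟨mem_univ _, h7⟩
        exact hxy ⟨x, h5, y, h6, rfl⟩
      · refine measure_union_null ?_ ?_
        · rw [Measure.prod_prod, hμE, zero_mul]
        · rw [Measure.prod_prod, hμE, mul_zero]
    exact h2
  have hR : ∀ᵐ z ∂(dif μ), ‖z‖ ≤ R := by
    filter_upwards [hEE] with z hz
    obtain ⟨x, hx, y, hy, rfl⟩ := hz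
    have h1 := mem_closedBall_zero_iff.1 (hr hx)
    have h2 := mem_closedBall_zero_iff.1 (hr hy)
    have h3 := norm_sub_le x y
    have h4 : 2 * r ≤ R := le_max_right _ _
    linarith
  -- the compact set
  let K : Set ℝ := {t : ℝ | ∃ x ∈ E, ∃ y ∈ E, t = dist x y}
  have hK : IsCompact K := by
    have h1 : K = (fun p : ℂ × ℂ => dist p.1 p.2) '' (E ×ˢ E) := by
      ext z
      constructor
      · rintro ⟨x, hx, y, hy, rfl⟩
        exact ⟨(x, y), ⟨hx, hy⟩, rfl⟩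
      · rintro ⟨p, ⟨hx, hy⟩, rfl⟩
        exact ⟨p.1, hx, p.2, hy, rfl⟩
    rw [h1]
    exact (hE.prod hE).image (by fun_prop)
  have hK0 : ((dif μ).map norm) Kᶜ = 0 := by
    rw [Measure.map_apply measurable_norm hK.measurableSet.compl]
    refine measure_mono_null ?_ hEE
    intro z hz hz'
    refine hz ?_
    obtain ⟨x, hx, y, hy, rfl⟩ := hz'
    exact ⟨x, hx, y, hy, (dist_eq_norm x y).symm⟩
  -- the good directions
  obtain ⟨A, κ, K', hA, hκ, hK', hA0, hAκ, hAK⟩ := hdir μ s hs1 hs2 hI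
  obtain ⟨C₀, hC₀, hen⟩ := hen
  obtain ⟨C₃, hC₃, hest⟩ := hest R κ K' hR0 hκ hK'
  let I : ℝ := (en s μ).toReal
  have hI0 : 0 ≤ I := ENNReal.toReal_nonneg
  have henI : en s μ ≤ ENNReal.ofReal I := (ENNReal.ofReal_toReal hI.ne).ge
  -- the scales
  let lam : ℝ := ‖c‖
  have hl0 : 0 < lam := norm_pos_iff.2 hc0
  let τ : ℝ := lam ^ ((1 : ℝ) / 3)
  have hτ0 : 0 < τ := Real.rpow_pos_of_pos hl0 _
  have hτ1 : τ < 1 := Real.rpow_lt_one hl0.le hc1 (by norm_num)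
  have hτ3 : τ ^ 3 = lam := by
    rw [← Real.rpow_natCast, ← Real.rpow_mul hl0.le]
    norm_num
  let δ : ℕ → ℝ := fun k => (τ ^ 4) ^ k
  have hδ : ∀ k, 0 < δ k := fun k => pow_pos (pow_pos hτ0 _) _
  have hτ4 : τ ^ 4 < 1 := pow_lt_one₀ hτ0.le hτ1 (by norm_num)
  have hδ2 : ∀ k, δ (k + 1) ≤ δ k := fun k =>
    pow_le_pow_of_le_one (pow_nonneg hτ0.le _) hτ4.le (Nat.le_succ k)
  have hck : ∀ k, ‖c ^ k‖ = (τ ^ 3) ^ k := fun k => by rw [norm_pow, hτ3]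
  have hδ3 : ∀ k, δ k ≤ ‖c ^ k‖ := by
    intro k
    rw [hck]
    exact pow_le_pow_left₀ (pow_nonneg hτ0.le _)
      (pow_le_pow_of_le_one hτ0.le hτ1.le (by norm_num)) k
  have hδ4 : Tendsto δ atTop (𝓝 0) :=
    tendsto_pow_atTop_nhds_zero_of_lt_one (pow_nonneg hτ0.le _) hτ4
  let g : ℝ := τ ^ ((s - 1) / 2)
  have hg0 : 0 < g := Real.rpow_pos_of_pos hτ0 _
  have hg1 : g < 1 := Real.rpow_lt_one hτ0.le hτ1 (by linarith)
  have hg2 : g ^ 2 = τ ^ (s - 1) := by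
    rw [← Real.rpow_natCast, ← Real.rpow_mul hτ0.le]
    congr 1
    push_cast
    ring
  have hτg : τ ≤ g ^ 2 := by
    rw [hg2]
    calc τ = τ ^ (1 : ℝ) := (Real.rpow_one _).symm
      _ ≤ τ ^ (s - 1) := Real.rpow_le_rpow_of_exponent_ge hτ0 hτ1.le (by linarith)
  let C : ℝ := C₃ * (C₀ * I + (τ ^ 8)⁻¹)
  have hC0 : 0 ≤ C := mul_nonneg hC₃.le (add_nonneg (mul_nonneg hC₀.le hI0)
    (inv_nonneg.2 (pow_nonneg hτ0.le _)))
  obtain ⟨k0, hk0⟩ : ∃ k0 : ℕ, ∀ k, k0 ≤ k → 2 * R * ‖c ^ k‖ ≤ κ := by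
    have h1 : Tendsto (fun k : ℕ => 2 * R * (τ ^ 3) ^ k) atTop (𝓝 (2 * R * 0)) := by
      refine (tendsto_pow_atTop_nhds_zero_of_lt_one (pow_nonneg hτ0.le _) ?_).const_mul _
      exact pow_lt_one₀ hτ0.le hτ1 (by norm_num)
    rw [mul_zero] at h1
    obtain ⟨k0, hk0⟩ := (h1.eventually (eventually_lt_nhds hκ)).exists_forall_of_atTop
    exact ⟨k0, fun k hk => by rw [hck]; exact (hk0 k hk).le⟩
  have hAA : 0 < (dif μ).real A := by
    rw [Measure.real]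
    exact ENNReal.toReal_pos hA0.ne' (measure_ne_top _ _)
  refine rec_main hadj hpos (Fin N × Fin N) c hc0 (fun j => T j.1 - T j.2) (dif μ) R hR1 hR hν
    K hK hK0 A hA hAA δ g C hδ hδ2 hδ3 hδ4 hg0 hg1 hC0 k0 ?_
  intro k hk
  have hp3 : 0 < (τ ^ 3) ^ k := pow_pos (pow_pos hτ0 _) _
  let Q : ℝ := C₀ * I * (g ^ 2) ^ k
  have hQ0 : 0 ≤ Q := mul_nonneg (mul_nonneg hC₀.le hI0) (pow_nonneg (pow_nonneg hg0.le _) _)
  have hQ : ∫⁻ θ in Ioc 0 (2 * Real.pi),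
      ENNReal.ofReal (dd (δ (k + 1) / ‖c ^ k‖) (δ k / ‖c ^ k‖) ((dif μ).map (pr θ))) ≤
        ENNReal.ofReal Q := by
    have ha : 0 < δ (k + 1) / ‖c ^ k‖ := by rw [hck]; exact div_pos (hδ _) hp3
    have hab : δ (k + 1) / ‖c ^ k‖ ≤ δ k / ‖c ^ k‖ :=
      div_le_div_of_nonneg_right (hδ2 k) (norm_nonneg _)
    have h1 := hen μ s I hs1 hs2 hI0 henI (δ (k + 1) / ‖c ^ k‖) (δ k / ‖c ^ k‖) ha hab
    refine (lintegral_mono fun θ => ENNReal.ofReal_le_ofReal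
      (hconv μ θ _ _ ha (ha.trans_le hab))).trans (h1.trans_eq ?_)
    congr 1
    have h2 : δ k / ‖c ^ k‖ = τ ^ k := by
      rw [hck]
      simp only [δ]
      rw [div_eq_iff hp3.ne', ← pow_mul, ← pow_mul, ← pow_add]
      congr 1
      ring
    have h3 : (τ ^ k) ^ (s - 1) = (g ^ 2) ^ k := by
      rw [hg2, ← Real.rpow_natCast, ← Real.rpow_natCast, ← Real.rpow_mul hτ0.le,
        ← Real.rpow_mul hτ0.le, mul_comm]
    rw [h2, h3]
  have hfin := hest (dif μ) hR (Wd (Fin N × Fin N) k)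
    (uu c (fun j : Fin N × Fin N => T j.1 - T j.2) k) (c ^ k) (pow_ne_zero _ hc0)
    (by rw [norm_pow]; exact pow_le_one₀ (norm_nonneg _) hc1.le) (hk0 k hk) (word hν k) A hAκ hAK
    (δ (k + 1)) (δ k) Q (hδ _) (hδ2 k) hQ0 hQ
  refine le_trans (le_of_eq ?_) (hfin.trans ?_)
  · rfl
  · rw [card_W, Nat.cast_pow]
    refine mul_le_mul_of_nonneg_left ?_ (pow_nonneg (Nat.cast_nonneg _) _)
    have h1 : ‖c ^ k‖ ^ 2 / δ (k + 1) ^ 2 ≤ (τ ^ 8)⁻¹ * ((g ^ 2) ^ k / ‖c ^ k‖) := by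
      rw [hck]
      have h2 : δ (k + 1) ^ 2 = (τ ^ 8) * (τ ^ k) ^ 8 := by
        simp only [δ]
        rw [← pow_mul, ← pow_mul, ← pow_mul, ← pow_add]
        congr 1
        ring
      have h3 : (τ ^ 3) ^ k = (τ ^ k) ^ 3 := by rw [← pow_mul, ← pow_mul, mul_comm]
      have h4 : τ ^ k ≤ (g ^ 2) ^ k := pow_le_pow_left₀ hτ0.le hτg k
      have h5 : 0 < τ ^ k := pow_pos hτ0 k
      rw [h2, h3]
      have h6 : ((τ ^ k) ^ 3) ^ 2 / ((τ ^ 8) * (τ ^ k) ^ 8) =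
          (τ ^ 8)⁻¹ * (τ ^ k / (τ ^ k) ^ 3) := by
        field_simp
      rw [h6]
      gcongr
    calc C₃ * (Q / ‖c ^ k‖ + ‖c ^ k‖ ^ 2 / δ (k + 1) ^ 2)
        ≤ C₃ * (Q / ‖c ^ k‖ + (τ ^ 8)⁻¹ * ((g ^ 2) ^ k / ‖c ^ k‖)) := by gcongr
      _ = C * g ^ k * (g ^ k / ‖c ^ k‖) := by
        simp only [Q, C]
        rw [pow_right_comm]
        ring

end

end Pool.Agent.Y293.FA
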