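import Mathlib
import Pool.Agent.Y293.FA.Stm3

/-!
# Ahlfors regular sets: statement
-/

namespace Pool.Agent.Y293.FA

open MeasureTheory Set Filter Topology Metric
open scoped ENNReal

/-- `A` is Ahlfors regular of dimension `s`. -/
def AhlReg (A : Set (EuclideanSpace ℝ (Fin 2))) (s : ℝ) : Prop :=
  ∃ (μ : Measure (EuclideanSpace ℝ (Fin 2))) (c C : ℝ), IsFiniteMeasure μ ∧ μ Aᶜ = 0 ∧ 0 < c ∧
    0 < C ∧ ∀ x ∈ A, ∀ r : ℝ, 0 < r → r ≤ 1 → ENNReal.ofReal (c * r ^ s) ≤ μ (closedBall x r) ∧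
      μ (closedBall x r) ≤ ENNReal.ofReal (C * r ^ s)

/-- Ahlfors regular sets have equal dimensions. -/
def S_AHL : Prop := ∀ (A : Set (EuclideanSpace ℝ (Fin 2))) (s : ℝ), IsCompact A → A.Nonempty →
  0 < s → AhlReg A s → BoxLE A s ∧ ENNReal.ofReal s ≤ dimH A

end Pool.Agent.Y293.FA
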